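import Mathlib

set_option autoImplicit false

/-!
# Context-free grammars, interpretations and grammatical families
-/

namespace Pool.Agent.TH736.GF

/-- A letter: a nonterminal `Sum.inl A` or a terminal `Sum.inr a` (terminals are numbers). -/
abbrev Sy (N : Type) : Type := N ⊕ ℕ

/-- A production `A → x β`, given as `(A, x, β)`; its right-hand side is a nonempty word. -/
abbrev Prd (N : Type) : Type := N × Sy N × List (Sy N)

/-- The right-hand side of a production. -/
def rhs {N : Type} (p : Prd N) : List (Sy N) := p.2.1 :: p.2.2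

/-- One derivation step. -/
def Step {N : Type} (P : List (Prd N)) (u v : List (Sy N)) : Prop :=
  ∃ (l r : List (Sy N)) (p : Prd N), p ∈ P ∧ u = l ++ Sum.inl p.1 :: r ∧ v = l ++ rhs p ++ r

/-- A context-free grammar without erasing productions: the start letter and the list of
productions; the letters of the grammar are the start letter and those occurring in productions. -/
abbrev Gram : Type := ℕ × List (Prd ℕ)

/-- The language of a grammar. -/
def lang (G : Gram) : Set (List ℕ) :=
  {w | Relation.ReflTransGen (Step G.2) [Sum.inl G.1] (w.map Sum.inr)}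

/-- `x'` is one of the letters assigned to `x` by `σ = (σN, σT)`. -/
def Assigned (σN σT : ℕ → Finset ℕ) : Sy ℕ → Sy ℕ → Prop
  | Sum.inl A', Sum.inl A => A' ∈ σN A
  | Sum.inr a', Sum.inr a => a' ∈ σT a
  | _, _ => False

/-- `G'` is an interpretation of `G`: there is an assignment of pairwise disjoint finite sets of
letters to the letters (nonterminals to nonterminals, terminals to terminals) such that the start
letter of `G'` is assigned to the start letter of `G`, and every production of `G'` arises from a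
production of `G` by replacing each letter occurrence by an assigned letter. -/
def IsInterp (G' G : Gram) : Prop :=
  ∃ σN σT : ℕ → Finset ℕ,
    (∀ A B, A ≠ B → Disjoint (σN A) (σN B)) ∧ (∀ a b, a ≠ b → Disjoint (σT a) (σT b)) ∧
    G'.1 ∈ σN G.1 ∧
    ∀ p' ∈ G'.2, ∃ p ∈ G.2, p'.1 ∈ σN p.1 ∧ List.Forall₂ (Assigned σN σT) (rhs p') (rhs p)

/-- The grammatical family of `G`. -/
def Fam (G : Gram) : Set (Set (List ℕ)) := {L | ∃ G', IsInterp G' G ∧ L = lang G'}

/-! ### Big-step derivations -/

/-- big-step derivation of a terminal word -/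
inductive Gen {N : Type} (P : List (Prd N)) : List (Sy N) → List ℕ → Prop
  | nil : Gen P [] []
  | ter (a : ℕ) (u : List (Sy N)) (w : List ℕ) : Gen P u w → Gen P (Sum.inr a :: u) (a :: w)
  | non (p : Prd N) (u : List (Sy N)) (w1 w2 : List ℕ) : p ∈ P → Gen P (rhs p) w1 → Gen P u w2 →
      Gen P (Sum.inl p.1 :: u) (w1 ++ w2)

section
variable {N : Type} {P : List (Prd N)}

theorem Gen.append {u v : List (Sy N)} {w1 w2 : List ℕ} (h1 : Gen P u w1) (h2 : Gen P v w2) :
    Gen P (u ++ v) (w1 ++ w2) := by
  induction h1 with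
  | nil => exact h2
  | ter a u w _ ih => exact Gen.ter a _ _ ih
  | non p u w1 w2' hp h _ _ ih =>
    rw [List.cons_append, List.append_assoc]
    exact Gen.non p _ _ _ hp h ih

theorem gen_nil {w : List ℕ} : Gen P [] w ↔ w = [] := by
  constructor
  · intro h; cases h; rfl
  · rintro rfl; exact Gen.nil

theorem gen_ter {a : ℕ} {u : List (Sy N)} {w : List ℕ} :
    Gen P (Sum.inr a :: u) w ↔ ∃ w', w = a :: w' ∧ Gen P u w' := by
  constructor
  · intro h
    generalize hx : Sum.inr a :: u = x at h
    cases h with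
    | nil => simp at hx
    | ter a' u' w' h =>
      simp only [List.cons.injEq, Sum.inr.injEq] at hx
      obtain ⟨rfl, rfl⟩ := hx
      exact ⟨w', rfl, h⟩
    | non p u' w1 w2 hp h1 h2 => simp at hx
  · rintro ⟨w', rfl, h⟩
    exact Gen.ter _ _ _ h

theorem gen_non {A : N} {u : List (Sy N)} {w : List ℕ} :
    Gen P (Sum.inl A :: u) w ↔ ∃ p w1 w2, p ∈ P ∧ p.1 = A ∧ Gen P (rhs p) w1 ∧ Gen P u w2 ∧
      w = w1 ++ w2 := by
  constructor
  · intro h
    generalize hx : Sum.inl A :: u = x at h
    cases h with
    | nil => simp at hx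
    | ter a' u' w' h => simp at hx
    | non p u' w1 w2 hp h1 h2 =>
      simp only [List.cons.injEq, Sum.inl.injEq] at hx
      obtain ⟨rfl, rfl⟩ := hx
      exact ⟨p, w1, w2, hp, rfl, h1, h2, rfl⟩
  · rintro ⟨p, w1, w2, hp, rfl, h1, h2, rfl⟩
    exact Gen.non _ _ _ _ hp h1 h2

theorem gen_append {u v : List (Sy N)} {w : List ℕ} :
    Gen P (u ++ v) w ↔ ∃ w1 w2, w = w1 ++ w2 ∧ Gen P u w1 ∧ Gen P v w2 := by
  constructor
  · intro h
    induction u generalizing w with
    | nil => exact ⟨[], w, rfl, Gen.nil, h⟩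
    | cons x u ih =>
      rw [List.cons_append] at h
      rcases x with A | a
      · rw [gen_non] at h
        obtain ⟨p, w1, w2, hp, hA, h1, h2, rfl⟩ := h
        obtain ⟨w3, w4, rfl, h3, h4⟩ := ih h2
        refine ⟨w1 ++ w3, w4, by simp, ?_, h4⟩
        rw [gen_non]
        exact ⟨p, w1, w3, hp, hA, h1, h3, rfl⟩
      · rw [gen_ter] at h
        obtain ⟨w', rfl, h⟩ := h
        obtain ⟨w3, w4, rfl, h3, h4⟩ := ih h
        exact ⟨a :: w3, w4, rfl, Gen.ter _ _ _ h3, h4⟩
  · rintro ⟨w1, w2, rfl, h1, h2⟩
    exact h1.append h2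

theorem gen_single {A : N} {w : List ℕ} :
    Gen P [Sum.inl A] w ↔ ∃ p ∈ P, p.1 = A ∧ Gen P (rhs p) w := by
  rw [gen_non]
  constructor
  · rintro ⟨p, w1, w2, hp, hA, h1, h2, rfl⟩
    rw [gen_nil] at h2
    subst h2
    exact ⟨p, hp, hA, by simpa using h1⟩
  · rintro ⟨p, hp, hA, h⟩
    exact ⟨p, w, [], hp, hA, h, Gen.nil, by simp⟩

theorem gen_cons {x : Sy N} {u : List (Sy N)} {w : List ℕ} :
    Gen P (x :: u) w ↔ ∃ w1 w2, w = w1 ++ w2 ∧ Gen P [x] w1 ∧ Gen P u w2 := by
  rw [show x :: u = [x] ++ u from rfl, gen_append]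

theorem gen_map_inr (w : List ℕ) : Gen P (w.map Sum.inr) w := by
  induction w with
  | nil => exact Gen.nil
  | cons a w ih => exact Gen.ter _ _ _ ih

theorem gen_replicate (k a : ℕ) (u : List (Sy N)) (w : List ℕ) :
    Gen P (List.replicate k (Sum.inr a) ++ u) w ↔ ∃ w', w = List.replicate k a ++ w' ∧
      Gen P u w' := by
  induction k generalizing w with
  | zero => simp
  | succ k ih =>
    rw [List.replicate_succ, List.cons_append, gen_ter]
    constructor
    · rintro ⟨w', rfl, h⟩
      obtain ⟨w'', rfl, h'⟩ := (ih _).1 h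
      exact ⟨w'', by simp [List.replicate_succ], h'⟩
    · rintro ⟨w', rfl, h⟩
      exact ⟨List.replicate k a ++ w', by simp [List.replicate_succ], (ih _).2 ⟨_, rfl, h⟩⟩

theorem step_gen {u v : List (Sy N)} {w : List ℕ} (h : Step P u v) (hw : Gen P v w) :
    Gen P u w := by
  obtain ⟨l, r, p, hp, rfl, rfl⟩ := h
  rw [gen_append, ] at hw
  obtain ⟨w1, w2, rfl, h1, h2⟩ := hw
  rw [gen_append] at h1
  obtain ⟨w3, w4, rfl, h3, h4⟩ := h1
  rw [List.append_assoc]
  exact h3.append (Gen.non p _ _ _ hp h4 h2)

theorem gen_of_derives {u : List (Sy N)} {w : List ℕ}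
    (h : Relation.ReflTransGen (Step P) u (w.map Sum.inr)) : Gen P u w := by
  induction h using Relation.ReflTransGen.head_induction_on with
  | refl => exact gen_map_inr w
  | head h _ ih => exact step_gen h ih

theorem step_append {u v : List (Sy N)} (l r : List (Sy N)) (h : Step P u v) :
    Step P (l ++ u ++ r) (l ++ v ++ r) := by
  obtain ⟨l', r', p, hp, rfl, rfl⟩ := h
  exact ⟨l ++ l', r' ++ r, p, hp, by simp, by simp⟩

theorem derives_append {u v : List (Sy N)} (l r : List (Sy N))
    (h : Relation.ReflTransGen (Step P) u v) :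
    Relation.ReflTransGen (Step P) (l ++ u ++ r) (l ++ v ++ r) := by
  induction h with
  | refl => exact Relation.ReflTransGen.refl
  | tail _ h ih => exact ih.tail (step_append l r h)

theorem derives_of_gen {u : List (Sy N)} {w : List ℕ} (h : Gen P u w) :
    Relation.ReflTransGen (Step P) u (w.map Sum.inr) := by
  induction h with
  | nil => exact Relation.ReflTransGen.refl
  | ter a u w _ ih =>
    have := derives_append [Sum.inr a] [] ih
    simpa using this
  | non p u w1 w2 hp _ _ ih1 ih2 =>
    have h1 : Step P (Sum.inl p.1 :: u) (rhs p ++ u) := ⟨[], u, p, hp, rfl, by simp⟩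
    refine Relation.ReflTransGen.head h1 ?_
    have h2 := derives_append [] u ih1
    have h3 := derives_append (w1.map Sum.inr) [] ih2
    simp only [List.nil_append, List.append_nil] at h2 h3
    rw [List.map_append]
    exact h2.trans h3

theorem derives_iff {u : List (Sy N)} {w : List ℕ} :
    Relation.ReflTransGen (Step P) u (w.map Sum.inr) ↔ Gen P u w :=
  ⟨gen_of_derives, derives_of_gen⟩

end

theorem mem_lang {G : Gram} {w : List ℕ} : w ∈ lang G ↔ Gen G.2 [Sum.inl G.1] w := derives_iff

/-- more productions generate more words -/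
theorem Gen.mono {N : Type} {P Q : List (Prd N)} (hPQ : ∀ p ∈ P, p ∈ Q) {u : List (Sy N)}
    {w : List ℕ} (h : Gen P u w) : Gen Q u w := by
  induction h with
  | nil => exact Gen.nil
  | ter a u w _ ih => exact Gen.ter _ _ _ ih
  | non p u w1 w2 hp _ _ ih1 ih2 => exact Gen.non _ _ _ _ (hPQ p hp) ih1 ih2

/-! ### Mapping grammars -/

section
variable {N M : Type}

/-- letterwise map -/
def ms (f : N → M) (τ : ℕ → ℕ) : Sy N → Sy M
  | Sum.inl A => Sum.inl (f A)
  | Sum.inr a => Sum.inr (τ a)

/-- map of a production -/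
def mp (f : N → M) (τ : ℕ → ℕ) (p : Prd N) : Prd M := (f p.1, ms f τ p.2.1, p.2.2.map (ms f τ))

theorem rhs_mp (f : N → M) (τ : ℕ → ℕ) (p : Prd N) : rhs (mp f τ p) = (rhs p).map (ms f τ) := rfl

theorem Gen.mapG {P : List (Prd N)} {Q : List (Prd M)} (f : N → M) (τ : ℕ → ℕ)
    (h : ∀ p ∈ P, mp f τ p ∈ Q) {u : List (Sy N)} {w : List ℕ} (hg : Gen P u w) :
    Gen Q (u.map (ms f τ)) (w.map τ) := by
  induction hg with
  | nil => exact Gen.nil
  | ter a u w _ ih => exact Gen.ter _ _ _ ih
  | non p u w1 w2 hp _ _ ih1 ih2 =>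
    rw [List.map_append, List.map_cons]
    exact Gen.non (mp f τ p) _ _ _ (h p hp) ih1 ih2

theorem ms_id (x : Sy N) : ms (fun A => A) (fun a => a) x = x := by
  rcases x with A | a <;> rfl

theorem mp_id (p : Prd N) : mp (fun A => A) (fun a => a) p = p := by
  obtain ⟨A, x, β⟩ := p
  simp only [mp, ms_id, Prod.mk.injEq, true_and]
  have : (ms (fun A : N => A) (fun a => a)) = id := by
    funext x; exact ms_id x
  rw [this, List.map_id]

/-- renaming of nonterminals by an injection preserves languages -/
theorem gen_rename {P : List (Prd N)} (e : N → M) (he : Function.Injective e)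
    {u : List (Sy N)} {w : List ℕ} :
    Gen (P.map (mp e (fun a => a))) (u.map (ms e (fun a => a))) w ↔ Gen P u w := by
  constructor
  · intro h
    generalize hx : u.map (ms e (fun a => a)) = x at h
    induction h generalizing u with
    | nil =>
      rw [List.map_eq_nil_iff] at hx
      subst hx
      exact Gen.nil
    | ter a v w _ ih =>
      rcases u with _ | ⟨y, u⟩
      · simp at hx
      rw [List.map_cons, List.cons.injEq] at hx
      obtain ⟨h1, h2⟩ := hx
      rcases y with A | b
      · simp [ms] at h1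
      · simp only [ms, Sum.inr.injEq] at h1
        subst h1
        exact Gen.ter _ _ _ (ih h2)
    | non p v w1 w2 hp _ _ ih1 ih2 =>
      rcases u with _ | ⟨y, u⟩
      · simp at hx
      rw [List.map_cons, List.cons.injEq] at hx
      obtain ⟨h1, h2⟩ := hx
      rcases y with A | b
      · rw [List.mem_map] at hp
        obtain ⟨q, hq, rfl⟩ := hp
        simp only [ms, Sum.inl.injEq] at h1
        have hA : A = q.1 := he h1
        subst hA
        exact Gen.non q _ _ _ hq (ih1 rfl) (ih2 h2)
      · simp [ms] at h1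
  · intro h
    have := h.mapG (Q := P.map (mp e (fun a => a))) e (fun a => a)
      (fun p hp => List.mem_map.2 ⟨p, hp, rfl⟩)
    simpa using this

end

/-! ### Characterisation of the family by letter-to-letter maps -/

/-- nonterminals occurring in a word -/
def nts (u : List (Sy ℕ)) : Finset ℕ := (u.filterMap Sum.getLeft?).toFinset

/-- terminals occurring in a word -/
def tms (u : List (Sy ℕ)) : Finset ℕ := (u.filterMap Sum.getRight?).toFinset

theorem mem_nts {u : List (Sy ℕ)} {A : ℕ} : A ∈ nts u ↔ Sum.inl A ∈ u := by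
  simp [nts, List.mem_filterMap, Sum.getLeft?_eq_some_iff]

theorem mem_tms {u : List (Sy ℕ)} {a : ℕ} : a ∈ tms u ↔ Sum.inr a ∈ u := by
  simp [tms, List.mem_filterMap, Sum.getRight?_eq_some_iff]

theorem isInterp_iff {G' G : Gram} : IsInterp G' G ↔
    ∃ f τ : ℕ → ℕ, f G'.1 = G.1 ∧ ∀ p ∈ G'.2, mp f τ p ∈ G.2 := by
  classical
  constructor
  · rintro ⟨σN, σT, hN, hT, hS, hP⟩
    have uN : ∀ {X A B : ℕ}, X ∈ σN A → X ∈ σN B → A = B := by
      intro X A B h1 h2
      by_contra hne
      exact Finset.disjoint_left.1 (hN A B hne) h1 h2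
    have uT : ∀ {X A B : ℕ}, X ∈ σT A → X ∈ σT B → A = B := by
      intro X A B h1 h2
      by_contra hne
      exact Finset.disjoint_left.1 (hT A B hne) h1 h2
    let f : ℕ → ℕ := fun X => if h : ∃ A, X ∈ σN A then h.choose else 0
    let τ : ℕ → ℕ := fun X => if h : ∃ A, X ∈ σT A then h.choose else 0
    have hf : ∀ {X A : ℕ}, X ∈ σN A → f X = A := by
      intro X A h
      have h' : ∃ A, X ∈ σN A := ⟨A, h⟩
      simp only [f, dif_pos h']
      exact uN h'.choose_spec h
    have hτ : ∀ {X A : ℕ}, X ∈ σT A → τ X = A := by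
      intro X A h
      have h' : ∃ A, X ∈ σT A := ⟨A, h⟩
      simp only [τ, dif_pos h']
      exact uT h'.choose_spec h
    have hms : ∀ {x' x : Sy ℕ}, Assigned σN σT x' x → ms f τ x' = x := by
      intro x' x h
      rcases x' with X | X <;> rcases x with Y | Y
      · exact congrArg Sum.inl (hf h)
      · exact h.elim
      · exact h.elim
      · exact congrArg Sum.inr (hτ h)
    refine ⟨f, τ, hf hS, fun p' hp' => ?_⟩
    obtain ⟨p, hp, h1, h2⟩ := hP p' hp'
    obtain ⟨A', x', β'⟩ := p'
    obtain ⟨A, x, β⟩ := p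
    simp only [rhs, List.forall₂_cons] at h2
    have h4 : ∀ {u' u : List (Sy ℕ)}, List.Forall₂ (Assigned σN σT) u' u →
        u'.map (ms f τ) = u := by
      intro u' u h
      induction h with
      | nil => rfl
      | cons h _ ih => rw [List.map_cons, hms h, ih]
    have h3 : β'.map (ms f τ) = β := h4 h2.2
    have : mp f τ (A', x', β') = (A, x, β) := by
      simp only [mp, Prod.mk.injEq]
      exact ⟨hf h1, hms h2.1, h3⟩
    rw [this]
    exact hp
  · rintro ⟨f, τ, hS, hP⟩
    let UN : Finset ℕ := insert G'.1 (nts (G'.2.flatMap (fun p => Sum.inl p.1 :: rhs p)))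
    let UT : Finset ℕ := tms (G'.2.flatMap rhs)
    refine ⟨fun A => UN.filter (fun X => f X = A), fun a => UT.filter (fun X => τ X = a),
      ?_, ?_, ?_, ?_⟩
    · intro A B hne
      rw [Finset.disjoint_left]
      intro X h1 h2
      rw [Finset.mem_filter] at h1 h2
      exact hne (h1.2.symm.trans h2.2)
    · intro A B hne
      rw [Finset.disjoint_left]
      intro X h1 h2
      rw [Finset.mem_filter] at h1 h2
      exact hne (h1.2.symm.trans h2.2)
    · rw [Finset.mem_filter]
      exact ⟨Finset.mem_insert_self _ _, hS⟩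
    · intro p' hp'
      refine ⟨mp f τ p', hP p' hp', ?_, ?_⟩
      · rw [Finset.mem_filter]
        refine ⟨Finset.mem_insert_of_mem ?_, rfl⟩
        rw [mem_nts, List.mem_flatMap]
        exact ⟨p', hp', List.mem_cons_self⟩
      · rw [rhs_mp, List.forall₂_map_right_iff, List.forall₂_same]
        intro x hx
        rcases x with X | X
        · change X ∈ UN.filter _
          rw [Finset.mem_filter]
          refine ⟨Finset.mem_insert_of_mem ?_, rfl⟩
          rw [mem_nts, List.mem_flatMap]
          exact ⟨p', hp', List.mem_cons_of_mem _ hx⟩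
        · change X ∈ UT.filter _
          rw [Finset.mem_filter]
          refine ⟨?_, rfl⟩
          rw [mem_tms, List.mem_flatMap]
          exact ⟨p', hp', hx⟩

/-- members of the family, from grammars with nonterminals in any countable type -/
theorem mem_fam_of {N : Type} [Encodable N] (G : Gram) (P : List (Prd N)) (S : N) (f : N → ℕ)
    (τ : ℕ → ℕ) (hS : f S = G.1) (hP : ∀ p ∈ P, mp f τ p ∈ G.2) (L : Set (List ℕ))
    (hL : ∀ w, w ∈ L ↔ Gen P [Sum.inl S] w) : L ∈ Fam G := by
  classical
  let e : N → ℕ := Encodable.encode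
  have he : Function.Injective e := Encodable.encode_injective
  refine ⟨(e S, P.map (mp e (fun a => a))), ?_, ?_⟩
  · rw [isInterp_iff]
    refine ⟨Function.extend e f (fun _ => 0), τ, ?_, ?_⟩
    · change Function.extend e f _ (e S) = _
      rw [he.extend_apply]
      exact hS
    · intro p' hp'
      change p' ∈ P.map _ at hp'
      rw [List.mem_map] at hp'
      obtain ⟨p, hp, rfl⟩ := hp'
      have h1 : ∀ x : Sy N, ms (Function.extend e f (fun _ => 0)) τ (ms e (fun a => a) x) =
          ms f τ x := by
        intro x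
        rcases x with A | a
        · simp only [ms, he.extend_apply]
        · rfl
      have : mp (Function.extend e f (fun _ => 0)) τ (mp e (fun a => a) p) = mp f τ p := by
        obtain ⟨A, x, β⟩ := p
        simp only [mp, he.extend_apply, h1, List.map_map, Prod.mk.injEq, true_and]
        apply List.map_congr_left
        intro x _
        exact h1 x
      rw [this]
      exact hP p hp
  · ext w
    rw [hL w, mem_lang]
    have := gen_rename (P := P) e he (u := [Sum.inl S]) (w := w)
    simpa [ms] using this.symm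

end Pool.Agent.TH736.GF
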