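import Mathlib
import Pool.Agent.TH736.GF.Basic

set_option autoImplicit false

/-!
# Adding a right-linear part to a grammar form

If the language of a right-linear grammar is contained in the language of a grammar `G₁`, then
adding the right-linear part to `G₁` does not change the grammatical family.
-/

namespace Pool.Agent.TH736.GF

/-- The grammar with a new start letter. -/
def G1 (S S1 : ℕ) (P1 : List (Prd ℕ)) : Gram := (S, (S, Sum.inl S1, []) :: P1)

/-- The grammar with a further part added. -/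
def G2 (S S1 SR : ℕ) (P1 PR : List (Prd ℕ)) : Gram :=
  (S, (S, Sum.inl S1, []) :: (S, Sum.inl SR, []) :: (P1 ++ PR))

/-- transition of an automaton given by a production `X → t` or `X → t Y` -/
def toTr : Prd ℕ → Option (ℕ × ℕ × Option ℕ)
  | (X, Sum.inr t, []) => some (X, t, none)
  | (X, Sum.inr t, [Sum.inl Y]) => some (X, t, some Y)
  | _ => none

/-- transitions -/
def trans (P : List (Prd ℕ)) : List (ℕ × ℕ × Option ℕ) := P.filterMap toTr

theorem mem_trans {P : List (Prd ℕ)} {X t : ℕ} {q : Option ℕ} :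
    (X, t, q) ∈ trans P ↔ (q = none ∧ (X, Sum.inr t, []) ∈ P) ∨
      ∃ Y, q = some Y ∧ (X, Sum.inr t, [Sum.inl Y]) ∈ P := by
  unfold trans
  rw [List.mem_filterMap]
  constructor
  · rintro ⟨p, hp, h⟩
    unfold toTr at h
    split at h
    · simp only [Option.some.injEq, Prod.mk.injEq] at h
      obtain ⟨rfl, rfl, rfl⟩ := h
      exact Or.inl ⟨rfl, hp⟩
    · simp only [Option.some.injEq, Prod.mk.injEq] at h
      obtain ⟨rfl, rfl, rfl⟩ := h
      exact Or.inr ⟨_, rfl, hp⟩
    · simp at h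
  · rintro (⟨rfl, h⟩ | ⟨Y, rfl, h⟩)
    · exact ⟨_, h, rfl⟩
    · exact ⟨_, h, rfl⟩

/-- states -/
def sts (P : List (Prd ℕ)) : List (Option ℕ) :=
  none :: ((trans P).map (fun e => some e.1) ++ (trans P).map (fun e => e.2.2))

/-- paths of the automaton -/
inductive Path (P : List (Prd ℕ)) : Option ℕ → List ℕ → Option ℕ → Prop
  | nil (p : Option ℕ) : Path P p [] p
  | cons (X t : ℕ) (q : Option ℕ) (w : List ℕ) (r : Option ℕ) : (X, t, q) ∈ trans P →
      Path P q w r → Path P (some X) (t :: w) r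

theorem path_nil {P : List (Prd ℕ)} {p q : Option ℕ} : Path P p [] q ↔ p = q := by
  constructor
  · intro h; cases h; rfl
  · rintro rfl; exact Path.nil _

theorem path_cons {P : List (Prd ℕ)} {p r : Option ℕ} {t : ℕ} {w : List ℕ} :
    Path P p (t :: w) r ↔ ∃ X q, p = some X ∧ (X, t, q) ∈ trans P ∧ Path P q w r := by
  constructor
  · intro h
    cases h with
    | cons X t q w r h1 h2 => exact ⟨X, q, rfl, h1, h2⟩
  · rintro ⟨X, q, rfl, h1, h2⟩
    exact Path.cons _ _ _ _ _ h1 h2

theorem path_append {P : List (Prd ℕ)} {p r : Option ℕ} {w1 w2 : List ℕ} :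
    Path P p (w1 ++ w2) r ↔ ∃ q, Path P p w1 q ∧ Path P q w2 r := by
  induction w1 generalizing p with
  | nil =>
    constructor
    · intro h; exact ⟨p, Path.nil _, h⟩
    · rintro ⟨q, h1, h2⟩
      rw [path_nil] at h1
      subst h1
      exact h2
  | cons t w1 ih =>
    rw [List.cons_append, path_cons]
    constructor
    · rintro ⟨X, q, rfl, h1, h2⟩
      obtain ⟨q', h3, h4⟩ := ih.1 h2
      exact ⟨q', path_cons.2 ⟨X, q, rfl, h1, h3⟩, h4⟩
    · rintro ⟨q', h1, h2⟩
      obtain ⟨X, q, rfl, h3, h4⟩ := path_cons.1 h1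
      exact ⟨X, q, rfl, h3, ih.2 ⟨q', h4, h2⟩⟩

theorem sts_of_trans {P : List (Prd ℕ)} {X t : ℕ} {q : Option ℕ} (h : (X, t, q) ∈ trans P) :
    some X ∈ sts P ∧ q ∈ sts P := by
  unfold sts
  constructor
  · refine List.mem_cons_of_mem _ (List.mem_append_left _ ?_)
    rw [List.mem_map]
    exact ⟨_, h, rfl⟩
  · refine List.mem_cons_of_mem _ (List.mem_append_right _ ?_)
    rw [List.mem_map]
    exact ⟨_, h, rfl⟩

theorem none_mem_sts (P : List (Prd ℕ)) : none ∈ sts P := List.mem_cons_self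

theorem Path.sts {P : List (Prd ℕ)} {p q : Option ℕ} {w : List ℕ} (h : Path P p w q)
    (hp : p ∈ sts P) : q ∈ sts P := by
  induction h with
  | nil => exact hp
  | cons X t q w r h _ ih => exact ih (sts_of_trans h).2

/-- nonterminals of the new interpretation -/
abbrev NN : Type := ℕ ⊕ (ℕ × Option ℕ × Option ℕ)

/-- all ways of labelling a word by states, starting in a given state -/
def expand (P : List (Prd ℕ)) (τ : ℕ → ℕ) : List (Sy ℕ) → Option ℕ → List (List (Sy NN) × Option ℕ)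
  | [], p => [([], p)]
  | Sum.inr a :: u, p => ((trans P).filter (fun e => some e.1 = p ∧ τ e.2.1 = a)).flatMap
      (fun e => (expand P τ u e.2.2).map (fun vr => (Sum.inr e.2.1 :: vr.1, vr.2)))
  | Sum.inl B :: u, p => (sts P).flatMap
      (fun q => (expand P τ u q).map (fun vr => (Sum.inl (Sum.inr (B, p, q)) :: vr.1, vr.2)))

section
variable {P : List (Prd ℕ)} {τ : ℕ → ℕ}

theorem expand_nil {p r : Option ℕ} {v : List (Sy NN)} :
    (v, r) ∈ expand P τ [] p ↔ v = [] ∧ r = p := by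
  simp [expand]

theorem expand_ter {a : ℕ} {u : List (Sy ℕ)} {p r : Option ℕ} {v : List (Sy NN)} :
    (v, r) ∈ expand P τ (Sum.inr a :: u) p ↔ ∃ X t q v', p = some X ∧ τ t = a ∧
      (X, t, q) ∈ trans P ∧ v = Sum.inr t :: v' ∧ (v', r) ∈ expand P τ u q := by
  simp only [expand, List.mem_flatMap, List.mem_filter, List.mem_map, decide_eq_true_eq]
  constructor
  · rintro ⟨⟨X, t, q⟩, ⟨h1, h2, h3⟩, ⟨v', r'⟩, h4, h5⟩
    simp only [Prod.mk.injEq] at h5
    obtain ⟨rfl, rfl⟩ := h5
    exact ⟨X, t, q, v', h2.symm, h3, h1, rfl, h4⟩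
  · rintro ⟨X, t, q, v', rfl, h2, h3, rfl, h5⟩
    exact ⟨(X, t, q), ⟨h3, rfl, h2⟩, (v', r), h5, rfl⟩

theorem expand_non {B : ℕ} {u : List (Sy ℕ)} {p r : Option ℕ} {v : List (Sy NN)} :
    (v, r) ∈ expand P τ (Sum.inl B :: u) p ↔ ∃ q v', q ∈ sts P ∧
      v = Sum.inl (Sum.inr (B, p, q)) :: v' ∧ (v', r) ∈ expand P τ u q := by
  simp only [expand, List.mem_flatMap, List.mem_map]
  constructor
  · rintro ⟨q, h1, ⟨v', r'⟩, h4, h5⟩
    simp only [Prod.mk.injEq] at h5
    obtain ⟨rfl, rfl⟩ := h5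
    exact ⟨q, v', h1, rfl, h4⟩
  · rintro ⟨q, v', h1, rfl, h5⟩
    exact ⟨q, h1, (v', r), h5, rfl⟩

theorem expand_map (f : ℕ → ℕ) {u : List (Sy ℕ)} {p r : Option ℕ} {v : List (Sy NN)}
    (h : (v, r) ∈ expand P τ u p) :
    v.map (ms (Sum.elim f (fun t : ℕ × Option ℕ × Option ℕ => t.1)) τ) = u := by
  induction u generalizing p v with
  | nil => rw [expand_nil] at h; rw [h.1]; rfl
  | cons x u ih =>
    rcases x with B | a
    · rw [expand_non] at h
      obtain ⟨q, v', _, rfl, h⟩ := h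
      rw [List.map_cons, ih h]
      rfl
    · rw [expand_ter] at h
      obtain ⟨X, t, q, v', _, h1, _, rfl, h⟩ := h
      rw [List.map_cons, ih h]
      simp only [ms, h1]

theorem expand_ne {x : Sy ℕ} {u : List (Sy ℕ)} {p r : Option ℕ} {v : List (Sy NN)}
    (h : (v, r) ∈ expand P τ (x :: u) p) : v ≠ [] := by
  rcases x with B | a
  · rw [expand_non] at h
    obtain ⟨q, v', _, rfl, h⟩ := h
    simp
  · rw [expand_ter] at h
    obtain ⟨X, t, q, v', _, h1, _, rfl, h⟩ := h
    simp

end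

/-- productions of the third kind -/
def mk3 (A : ℕ) (st : Option ℕ) : List (Sy NN) × Option ℕ → Option (Prd NN)
  | ([], _) => none
  | (y :: v, r) => some (Sum.inr (A, st, r), y, v)

/-- productions of the second kind -/
def mk2 (S' S1 SR : ℕ) (f : ℕ → ℕ) : Prd ℕ → Option (Prd NN)
  | (X, Sum.inl Y, []) =>
    if X = S' ∧ f Y = SR then some (Sum.inl S', Sum.inl (Sum.inr (S1, some Y, none)), []) else none
  | _ => none

open scoped Classical in
/-- productions of the new interpretation -/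
noncomputable def PP (S S1 SR S' : ℕ) (P1 P : List (Prd ℕ)) (f τ : ℕ → ℕ) : List (Prd NN) :=
  (P.filter (fun p => decide (mp f τ p ∈ ((S, Sum.inl S1, []) :: P1 : List (Prd ℕ))))).map
    (mp Sum.inl (fun a => a)) ++
  (P.filterMap (mk2 S' S1 SR f) ++
  P1.flatMap (fun p => (sts P).flatMap (fun st => (expand P τ (rhs p) st).filterMap (mk3 p.1 st))))

section
variable {S S1 SR S' : ℕ} {P1 P : List (Prd ℕ)} {f τ : ℕ → ℕ}

open scoped Classical in
theorem mem_PP {p : Prd NN} : p ∈ PP S S1 SR S' P1 P f τ ↔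
    (∃ p0 ∈ P, mp f τ p0 ∈ (S, Sum.inl S1, []) :: P1 ∧ p = mp Sum.inl (fun a => a) p0) ∨
    (∃ Y, (S', Sum.inl Y, []) ∈ P ∧ f Y = SR ∧
      p = (Sum.inl S', Sum.inl (Sum.inr (S1, some Y, none)), [])) ∨
    (∃ p1 ∈ P1, ∃ st ∈ sts P, ∃ r, (rhs p, r) ∈ expand P τ (rhs p1) st ∧
      p.1 = Sum.inr (p1.1, st, r)) := by
  unfold PP
  rw [List.mem_append, List.mem_append, List.mem_map, List.mem_filterMap, List.mem_flatMap]
  refine or_congr ?_ (or_congr ?_ ?_)
  · constructor
    · rintro ⟨p0, h1, rfl⟩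
      rw [List.mem_filter] at h1
      exact ⟨p0, h1.1, of_decide_eq_true h1.2, rfl⟩
    · rintro ⟨p0, h1, h2, rfl⟩
      refine ⟨p0, ?_, rfl⟩
      rw [List.mem_filter]
      exact ⟨h1, decide_eq_true h2⟩
  · constructor
    · rintro ⟨p0, h1, h2⟩
      unfold mk2 at h2
      split at h2
      · split_ifs at h2 with h3
        obtain ⟨rfl, h4⟩ := h3
        simp only [Option.some.injEq] at h2
        exact ⟨_, h1, h4, h2.symm⟩
      · simp at h2
    · rintro ⟨Y, h1, h2, rfl⟩
      exact ⟨_, h1, by simp [mk2, h2]⟩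
  · constructor
    · rintro ⟨p1, h1, h2⟩
      rw [List.mem_flatMap] at h2
      obtain ⟨st, h2, h3⟩ := h2
      rw [List.mem_filterMap] at h3
      obtain ⟨⟨v, r⟩, h3, h4⟩ := h3
      rcases v with _ | ⟨y, v⟩
      · simp [mk3] at h4
      · simp only [mk3, Option.some.injEq] at h4
        subst h4
        exact ⟨p1, h1, st, h2, r, h3, rfl⟩
    · rintro ⟨p1, h1, st, h2, r, h3, h4⟩
      refine ⟨p1, h1, ?_⟩
      rw [List.mem_flatMap]
      refine ⟨st, h2, ?_⟩
      rw [List.mem_filterMap]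
      refine ⟨_, h3, ?_⟩
      obtain ⟨A, y, v⟩ := p
      simp only at h4
      subst h4
      rfl

/-- a derivation from a labelled word gives a derivation and a path -/
theorem gen_expand {v : List (Sy NN)} {w : List ℕ} (h : Gen (PP S S1 SR S' P1 P f τ) v w) :
    ∀ {u : List (Sy ℕ)} {p r : Option ℕ}, (v, r) ∈ expand P τ u p →
      Gen P1 u (w.map τ) ∧ Path P p w r := by
  induction h with
  | nil =>
    intro u p r h
    rcases u with _ | ⟨x, u⟩
    · rw [expand_nil] at h
      rw [h.2]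
      exact ⟨Gen.nil, Path.nil _⟩
    · exact absurd rfl (expand_ne h)
  | ter t v w _ ih =>
    intro u p r h
    rcases u with _ | ⟨x, u⟩
    · rw [expand_nil] at h; simp at h
    rcases x with B | a
    · rw [expand_non] at h
      obtain ⟨q, v', _, h, _⟩ := h
      simp at h
    · rw [expand_ter] at h
      obtain ⟨X, t', q, v', rfl, h1, h2, h3, h4⟩ := h
      simp only [List.cons.injEq, Sum.inr.injEq] at h3
      obtain ⟨rfl, rfl⟩ := h3
      obtain ⟨h5, h6⟩ := ih h4
      refine ⟨?_, Path.cons _ _ _ _ _ h2 h6⟩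
      rw [List.map_cons, h1]
      exact Gen.ter _ _ _ h5
  | non p0 v w1 w2 hp _ _ ih1 ih2 =>
    intro u p r h
    rcases u with _ | ⟨x, u⟩
    · rw [expand_nil] at h; simp at h
    rcases x with B | a
    · rw [expand_non] at h
      obtain ⟨q, v', hq, h, h'⟩ := h
      simp only [List.cons.injEq, Sum.inl.injEq] at h
      obtain ⟨h1, rfl⟩ := h
      rw [mem_PP] at hp
      rcases hp with ⟨p0', _, _, rfl⟩ | ⟨Y, _, _, rfl⟩ | ⟨p1, hp1, st, hst, r', h2, h3⟩
      · simp [mp] at h1
      · simp at h1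
      · rw [h3] at h1
        simp only [Sum.inr.injEq, Prod.mk.injEq] at h1
        obtain ⟨rfl, rfl, rfl⟩ := h1
        obtain ⟨h5, h6⟩ := ih1 h2
        obtain ⟨h7, h8⟩ := ih2 h'
        rw [List.map_append]
        exact ⟨Gen.non _ _ _ _ hp1 h5 h7, path_append.2 ⟨_, h6, h8⟩⟩
    · rw [expand_ter] at h
      obtain ⟨X, t', q, v', _, h1, h2, h3, h4⟩ := h
      simp at h3

/-- the converse -/
theorem expand_gen {u : List (Sy ℕ)} {w' : List ℕ} (h : Gen P1 u w') :
    ∀ {w : List ℕ} {p r : Option ℕ}, w.map τ = w' → p ∈ sts P → Path P p w r →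
      ∃ v, (v, r) ∈ expand P τ u p ∧ Gen (PP S S1 SR S' P1 P f τ) v w := by
  induction h with
  | nil =>
    intro w p r hw hp hr
    rw [List.map_eq_nil_iff] at hw
    subst hw
    rw [path_nil] at hr
    subst hr
    exact ⟨[], expand_nil.2 ⟨rfl, rfl⟩, Gen.nil⟩
  | ter a u w' _ ih =>
    intro w p r hw hp hr
    rcases w with _ | ⟨t, w⟩
    · simp at hw
    rw [List.map_cons, List.cons.injEq] at hw
    obtain ⟨h1, h2⟩ := hw
    rw [path_cons] at hr
    obtain ⟨X, q, rfl, h3, h4⟩ := hr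
    obtain ⟨v, h5, h6⟩ := ih h2 (sts_of_trans h3).2 h4
    exact ⟨Sum.inr t :: v, expand_ter.2 ⟨X, t, q, v, rfl, h1, h3, rfl, h5⟩, Gen.ter _ _ _ h6⟩
  | non p1 u w1' w2' hp1 _ _ ih1 ih2 =>
    intro w p r hw hp hr
    rw [List.map_eq_append_iff] at hw
    obtain ⟨w1, w2, rfl, hw1, hw2⟩ := hw
    rw [path_append] at hr
    obtain ⟨q, h3, h4⟩ := hr
    obtain ⟨v1, h5, h6⟩ := ih1 hw1 hp h3
    obtain ⟨v2, h7, h8⟩ := ih2 hw2 (h3.sts hp) h4
    refine ⟨Sum.inl (Sum.inr (p1.1, p, q)) :: v2,
      expand_non.2 ⟨q, v2, h3.sts hp, rfl, h7⟩, ?_⟩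
    rcases v1 with _ | ⟨y, v⟩
    · exact absurd rfl (expand_ne h5)
    · have h9 : ((Sum.inr (p1.1, p, q), y, v) : Prd NN) ∈ PP S S1 SR S' P1 P f τ := by
        rw [mem_PP]
        exact Or.inr (Or.inr ⟨p1, hp1, p, hp, q, h5, rfl⟩)
      exact Gen.non _ _ _ _ h9 h6 h8

end

/-- Structural hypotheses on the parts of the grammars. -/
structure Parts (S S1 SR : ℕ) (P1 PR : List (Prd ℕ)) (U1 U2 : ℕ → Prop) : Prop where
  hS1 : U1 S1
  hSR : U2 SR
  nS1 : ¬ U1 S
  nS2 : ¬ U2 S
  disj : ∀ A, U1 A → ¬ U2 A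
  h1 : ∀ p ∈ P1, U1 p.1 ∧ ∀ A, Sum.inl A ∈ rhs p → U1 A
  h2 : ∀ p ∈ PR, U2 p.1 ∧ ∃ a, p.2.1 = Sum.inr a ∧ (p.2.2 = [] ∨ ∃ B, U2 B ∧ p.2.2 = [Sum.inl B])

section
variable {S S1 SR : ℕ} {P1 PR : List (Prd ℕ)} {U1 U2 : ℕ → Prop}

theorem mem_G2 {p : Prd ℕ} : p ∈ (G2 S S1 SR P1 PR).2 ↔
    p = (S, Sum.inl S1, []) ∨ p = (S, Sum.inl SR, []) ∨ p ∈ P1 ∨ p ∈ PR := by
  simp [G2]

theorem Parts.inP1 (h : Parts S S1 SR P1 PR U1 U2) {p : Prd ℕ}
    (hp : p ∈ (G2 S S1 SR P1 PR).2) (hU : U1 p.1) : p ∈ P1 := by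
  rw [mem_G2] at hp
  rcases hp with rfl | rfl | hp | hp
  · exact absurd hU h.nS1
  · exact absurd hU h.nS1
  · exact hp
  · exact absurd (h.h2 p hp).1 (h.disj _ hU)

theorem Parts.inPR (h : Parts S S1 SR P1 PR U1 U2) {p : Prd ℕ}
    (hp : p ∈ (G2 S S1 SR P1 PR).2) (hU : U2 p.1) : p ∈ PR := by
  rw [mem_G2] at hp
  rcases hp with rfl | rfl | hp | hp
  · exact absurd hU h.nS2
  · exact absurd hU h.nS2
  · exact absurd hU (h.disj _ (h.h1 p hp).1)
  · exact hp

theorem Parts.isS (h : Parts S S1 SR P1 PR U1 U2) {p : Prd ℕ}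
    (hp : p ∈ (G2 S S1 SR P1 PR).2) (hU : p.1 = S) :
    p = (S, Sum.inl S1, []) ∨ p = (S, Sum.inl SR, []) := by
  rw [mem_G2] at hp
  rcases hp with rfl | rfl | hp | hp
  · exact Or.inl rfl
  · exact Or.inr rfl
  · exact absurd (hU ▸ (h.h1 p hp).1) h.nS1
  · exact absurd (hU ▸ (h.h2 p hp).1) h.nS2

theorem Parts.genPR (h : Parts S S1 SR P1 PR U1 U2) {u : List (Sy ℕ)} {w : List ℕ}
    (hg : Gen (G2 S S1 SR P1 PR).2 u w) (hu : ∀ A, Sum.inl A ∈ u → U2 A) : Gen PR u w := by
  induction hg with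
  | nil => exact Gen.nil
  | ter a u w _ ih => exact Gen.ter _ _ _ (ih fun A hA => hu A (List.mem_cons_of_mem _ hA))
  | non p u w1 w2 hp _ _ ih1 ih2 =>
    have hpU := hu p.1 List.mem_cons_self
    have hpR := h.inPR hp hpU
    refine Gen.non _ _ _ _ hpR (ih1 ?_) (ih2 fun A hA => hu A (List.mem_cons_of_mem _ hA))
    intro A hA
    obtain ⟨a, ha, hb⟩ := (h.h2 p hpR).2
    unfold rhs at hA
    rw [ha] at hA
    rcases hb with hb | ⟨B, hB, hb⟩
    · rw [hb] at hA; simp at hA
    · rw [hb] at hA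
      simp only [List.mem_cons, reduceCtorEq, Sum.inl.injEq, List.not_mem_nil, or_false,
        false_or] at hA
      rw [hA]; exact hB

variable {S' : ℕ} {P : List (Prd ℕ)} {f τ : ℕ → ℕ}

/-- the first part of an interpretation is unchanged -/
theorem Parts.old (h : Parts S S1 SR P1 PR U1 U2) (hS : f S' = S)
    (hP : ∀ p ∈ P, mp f τ p ∈ (G2 S S1 SR P1 PR).2) {u : List (Sy ℕ)} {w : List ℕ}
    (hu : ∀ A, Sum.inl A ∈ u → U1 (f A)) :
    Gen (PP S S1 SR S' P1 P f τ) (u.map (ms Sum.inl (fun a => a))) w ↔ Gen P u w := by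
  have key : ∀ p ∈ P, U1 (f p.1) → mp f τ p ∈ P1 ∧ ∀ A, Sum.inl A ∈ rhs p → U1 (f A) := by
    intro p hp hU
    have h1 : mp f τ p ∈ P1 := h.inP1 (hP p hp) hU
    refine ⟨h1, fun A hA => ?_⟩
    refine (h.h1 _ h1).2 (f A) ?_
    rw [rhs_mp, List.mem_map]
    exact ⟨_, hA, rfl⟩
  constructor
  · intro hg
    generalize hx : u.map (ms Sum.inl (fun a => a)) = x at hg
    induction hg generalizing u with
    | nil =>
      rw [List.map_eq_nil_iff] at hx
      subst hx
      exact Gen.nil
    | ter a v w _ ih =>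
      rcases u with _ | ⟨y, u⟩
      · simp at hx
      rw [List.map_cons, List.cons.injEq] at hx
      obtain ⟨h1, h2⟩ := hx
      rcases y with A | b
      · simp [ms] at h1
      · simp only [ms, Sum.inr.injEq] at h1
        subst h1
        exact Gen.ter _ _ _ (ih (fun A hA => hu A (List.mem_cons_of_mem _ hA)) h2)
    | non p v w1 w2 hp _ _ ih1 ih2 =>
      rcases u with _ | ⟨y, u⟩
      · simp at hx
      rw [List.map_cons, List.cons.injEq] at hx
      obtain ⟨h1, h2⟩ := hx
      rcases y with A | b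
      · simp only [ms, Sum.inl.injEq] at h1
        have hUA : U1 (f A) := hu A List.mem_cons_self
        rw [mem_PP] at hp
        rcases hp with ⟨p0, h3, h4, rfl⟩ | ⟨Y, _, _, rfl⟩ | ⟨p1, hp1, st, hst, r', _, h3⟩
        · simp only [mp, Sum.inl.injEq] at h1
          subst h1
          refine Gen.non p0 _ _ _ h3 (ih1 (key p0 h3 hUA).2 rfl)
            (ih2 (fun A hA => hu A (List.mem_cons_of_mem _ hA)) h2)
        · simp only [Sum.inl.injEq] at h1
          subst h1
          rw [hS] at hUA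
          exact absurd hUA h.nS1
        · rw [h3] at h1
          simp at h1
      · simp [ms] at h1
  · intro hg
    induction hg with
    | nil => exact Gen.nil
    | ter a u w _ ih => exact Gen.ter _ _ _ (ih fun A hA => hu A (List.mem_cons_of_mem _ hA))
    | non p u w1 w2 hp _ _ ih1 ih2 =>
      have hU := hu p.1 List.mem_cons_self
      have h9 : mp Sum.inl (fun a => a) p ∈ PP S S1 SR S' P1 P f τ := by
        rw [mem_PP]
        exact Or.inl ⟨p, hp, List.mem_cons_of_mem _ (key p hp hU).1, rfl⟩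
      exact Gen.non _ _ _ _ h9 (ih1 (key p hp hU).2)
        (ih2 fun A hA => hu A (List.mem_cons_of_mem _ hA))

theorem gen_of_path {X : Option ℕ} {w : List ℕ} {r : Option ℕ} (h : Path P X w r) (hr : r = none) :
    ∀ Y, X = some Y → Gen P [Sum.inl Y] w := by
  induction h with
  | nil p => intro Y hY; rw [hr] at hY; simp at hY
  | cons X t q w r h h' ih =>
    intro Y hY
    simp only [Option.some.injEq] at hY
    subst hY
    rw [gen_single]
    rw [mem_trans] at h
    rcases h with ⟨rfl, h⟩ | ⟨Z, rfl, h⟩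
    · refine ⟨_, h, rfl, ?_⟩
      have : w = [] := by
        cases h' with
        | nil => rfl
      subst this
      exact Gen.ter _ _ _ Gen.nil
    · exact ⟨_, h, rfl, Gen.ter _ _ _ (ih hr Z rfl)⟩

theorem Parts.path_of_gen (h : Parts S S1 SR P1 PR U1 U2)
    (hP : ∀ p ∈ P, mp f τ p ∈ (G2 S S1 SR P1 PR).2) :
    ∀ (n : ℕ) (w : List ℕ), w.length ≤ n → ∀ X, U2 (f X) → Gen P [Sum.inl X] w →
      Path P (some X) w none := by
  intro n
  induction n with
  | zero =>
    intro w hw X hX hg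
    have hw0 : w = [] := List.length_eq_zero_iff.1 (by omega)
    subst hw0
    rw [gen_single] at hg
    obtain ⟨p, hp, rfl, hg⟩ := hg
    have h1 := h.inPR (hP p hp) hX
    obtain ⟨a, ha, -⟩ := (h.h2 _ h1).2
    obtain ⟨A, x, β⟩ := p
    rcases x with B | b
    · simp [mp, ms] at ha
    · simp only [rhs] at hg
      rw [gen_ter] at hg
      obtain ⟨w', hw', _⟩ := hg
      simp at hw'
  | succ n ih =>
    intro w hw X hX hg
    rw [gen_single] at hg
    obtain ⟨p, hp, rfl, hg⟩ := hg
    have h1 := h.inPR (hP p hp) hX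
    obtain ⟨a, ha, hb⟩ := (h.h2 _ h1).2
    obtain ⟨A, x, β⟩ := p
    rcases x with B | b
    · simp [mp, ms] at ha
    · simp only [rhs] at hg
      rw [gen_ter] at hg
      obtain ⟨w', rfl, hg⟩ := hg
      simp only [mp] at hb
      rcases hb with hb | ⟨B, hB, hb⟩
      · rw [List.map_eq_nil_iff] at hb
        subst hb
        rw [gen_nil] at hg
        subst hg
        exact Path.cons _ _ _ _ _ (mem_trans.2 (Or.inl ⟨rfl, hp⟩)) (Path.nil _)
      · rcases β with _ | ⟨y, β⟩
        · simp at hb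
        rcases β with _ | ⟨z, β⟩
        · simp only [List.map_cons, List.map_nil, List.cons.injEq, and_true] at hb
          rcases y with Y | y
          · simp only [ms, Sum.inl.injEq] at hb
            subst hb
            refine Path.cons _ _ _ _ _ (mem_trans.2 (Or.inr ⟨Y, rfl, hp⟩)) ?_
            refine ih w' ?_ Y hB hg
            simp only [List.length_cons] at hw
            omega
          · simp [ms] at hb
        · simp at hb

/-- **Main lemma.** If the right-linear part generates nothing new, the family is unchanged. -/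
theorem Parts.fam_le (h : Parts S S1 SR P1 PR U1 U2)
    (hincl : ∀ w, Gen PR [Sum.inl SR] w → Gen P1 [Sum.inl S1] w) :
    Fam (G2 S S1 SR P1 PR) ⊆ Fam (G1 S S1 P1) := by
  rintro L ⟨⟨S', P⟩, hI, rfl⟩
  rw [isInterp_iff] at hI
  obtain ⟨f, τ, hS, hP⟩ := hI
  simp only [G2] at hS
  change ∀ p ∈ P, mp f τ p ∈ (G2 S S1 SR P1 PR).2 at hP
  refine mem_fam_of (G1 S S1 P1) (PP S S1 SR S' P1 P f τ) (Sum.inl S')
    (Sum.elim f (fun t : ℕ × Option ℕ × Option ℕ => t.1)) τ hS ?_ _ ?_
  · intro p hp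
    rw [mem_PP] at hp
    change _ ∈ (S, Sum.inl S1, []) :: P1
    rcases hp with ⟨p0, h3, h4, rfl⟩ | ⟨Y, h3, h4, rfl⟩ | ⟨p1, hp1, st, hst, r', h2, h3⟩
    · have : mp (Sum.elim f (fun t : ℕ × Option ℕ × Option ℕ => t.1)) τ
          (mp Sum.inl (fun a => a) p0) = mp f τ p0 := by
        obtain ⟨A, x, β⟩ := p0
        have h1 : ∀ x : Sy ℕ, ms (Sum.elim f (fun t : ℕ × Option ℕ × Option ℕ => t.1)) τ
            (ms Sum.inl (fun a => a) x) = ms f τ x := by
          intro x
          rcases x with A | a <;> rfl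
        simp only [mp, Sum.elim_inl, h1, List.map_map, Prod.mk.injEq, true_and]
        apply List.map_congr_left
        intro x _
        exact h1 x
      rw [this]
      exact h4
    · have : mp (Sum.elim f (fun t : ℕ × Option ℕ × Option ℕ => t.1)) τ
          (Sum.inl S', Sum.inl (Sum.inr (S1, some Y, none)), []) = (S, Sum.inl S1, []) := by
        simp only [mp, ms, Sum.elim_inl, Sum.elim_inr, List.map_nil, hS]
      rw [this]
      exact List.mem_cons_self
    · have : mp (Sum.elim f (fun t : ℕ × Option ℕ × Option ℕ => t.1)) τ p = p1 := by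
        have h4 := expand_map f h2
        obtain ⟨A, x, β⟩ := p
        obtain ⟨B, y, γ⟩ := p1
        simp only at h3
        subst h3
        simp only [rhs, List.map_cons, List.cons.injEq] at h4
        simp only [mp, Sum.elim_inr, Prod.mk.injEq, true_and]
        exact h4
      rw [this]
      exact List.mem_cons_of_mem _ hp1
  · intro w
    rw [mem_lang]
    change Gen P [Sum.inl S'] w ↔ _
    constructor
    · intro hg
      rw [gen_single] at hg
      obtain ⟨p, hp, hpS, hg⟩ := hg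
      have h1 := h.isS (hP p hp) (by change f p.1 = S; rw [hpS, hS])
      obtain ⟨A, x, β⟩ := p
      simp only at hpS
      subst hpS
      simp only [mp, Prod.mk.injEq] at h1
      rcases h1 with ⟨-, h2, h3⟩ | ⟨-, h2, h3⟩
      · rw [List.map_eq_nil_iff] at h3
        subst h3
        rcases x with X | x
        · simp only [ms, Sum.inl.injEq] at h2
          have hX : ∀ A, Sum.inl A ∈ [(Sum.inl X : Sy ℕ)] → U1 (f A) := by
            intro A hA
            simp only [List.mem_singleton, Sum.inl.injEq] at hA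
            rw [hA, h2]
            exact h.hS1
          have h4 := (h.old (τ := τ) hS hP hX (w := w)).2 hg
          rw [gen_single]
          refine ⟨mp Sum.inl (fun a => a) (A, Sum.inl X, []), ?_, rfl, h4⟩
          rw [mem_PP]
          refine Or.inl ⟨_, hp, ?_, rfl⟩
          simp only [mp, ms, h2, List.map_nil, hS]
          exact List.mem_cons_self
        · simp [ms] at h2
      · rw [List.map_eq_nil_iff] at h3
        subst h3
        rcases x with Y | x
        · simp only [ms, Sum.inl.injEq] at h2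
          have h4 := h.path_of_gen hP _ w le_rfl Y (by rw [h2]; exact h.hSR) hg
          have h5 : some Y ∈ sts P := by
            cases h4 with
            | cons X t q w r h' _ => exact (sts_of_trans h').1
          have h6 : Gen PR [Sum.inl SR] (w.map τ) := by
            have h7 := Gen.mapG (Q := (G2 S S1 SR P1 PR).2) f τ hP hg
            simp only [rhs, List.map_cons, List.map_nil, ms, h2] at h7
            refine h.genPR h7 ?_
            intro A hA
            simp only [List.mem_singleton, Sum.inl.injEq] at hA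
            rw [hA]
            exact h.hSR
          obtain ⟨v, h7, h8⟩ := expand_gen (S := S) (S1 := S1) (SR := SR) (S' := A) (f := f)
            (hincl _ h6) (w := w) rfl h5 h4
          rw [expand_non] at h7
          obtain ⟨q, v', h9, rfl, h10⟩ := h7
          rw [expand_nil] at h10
          obtain ⟨rfl, rfl⟩ := h10
          rw [gen_single]
          refine ⟨(Sum.inl A, Sum.inl (Sum.inr (S1, some Y, none)), []), ?_, rfl, h8⟩
          rw [mem_PP]
          exact Or.inr (Or.inl ⟨Y, hp, h2, rfl⟩)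
        · simp [ms] at h2
    · intro hg
      rw [gen_single] at hg
      obtain ⟨p, hp, hpS, hg⟩ := hg
      rw [mem_PP] at hp
      rcases hp with ⟨p0, h3, h4, rfl⟩ | ⟨Y, h3, h4, rfl⟩ | ⟨p1, hp1, st, hst, r', h2, h3⟩
      · simp only [mp, Sum.inl.injEq] at hpS
        rw [gen_single]
        refine ⟨p0, h3, hpS, ?_⟩
        rw [rhs_mp] at hg
        refine (h.old (τ := τ) hS hP ?_ (w := w)).1 hg
        rw [List.mem_cons] at h4
        rcases h4 with h4 | h4
        · intro A hA
          have : ms f τ (Sum.inl A) ∈ rhs (mp f τ p0) := by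
            rw [rhs_mp, List.mem_map]; exact ⟨_, hA, rfl⟩
          rw [h4] at this
          simp only [rhs, ms, List.mem_singleton, Sum.inl.injEq] at this
          rw [this]
          exact h.hS1
        · have := (h.h1 _ h4).1
          change U1 (f p0.1) at this
          rw [hpS, hS] at this
          exact absurd this h.nS1
      · have h5 : (([Sum.inl (Sum.inr (S1, some Y, none))] : List (Sy NN)), (none : Option ℕ)) ∈
            expand P τ [Sum.inl S1] (some Y) := by
          rw [expand_non]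
          exact ⟨none, [], none_mem_sts P, rfl, expand_nil.2 ⟨rfl, rfl⟩⟩
        have h6 := (gen_expand hg h5).2
        have h7 := gen_of_path h6 rfl Y rfl
        rw [gen_single]
        exact ⟨_, h3, rfl, h7⟩
      · rw [h3] at hpS
        simp at hpS

/-- the converse inclusion is trivial -/
theorem fam_le_G2 : Fam (G1 S S1 P1) ⊆ Fam (G2 S S1 SR P1 PR) := by
  rintro L ⟨G', hI, rfl⟩
  refine ⟨G', ?_, rfl⟩
  rw [isInterp_iff] at hI ⊢
  obtain ⟨f, τ, hS, hP⟩ := hI
  refine ⟨f, τ, hS, fun p hp => ?_⟩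
  have := hP p hp
  simp only [G1, List.mem_cons] at this
  rw [mem_G2]
  rcases this with h | h
  · exact Or.inl h
  · exact Or.inr (Or.inr (Or.inl h))

end

end Pool.Agent.TH736.GF
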