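import Mathlib
import Pool.Agent.TH736.GF.Prod
import Pool.Agent.H109R3.CF.Src

set_option autoImplicit false

/-!
# Histories of residue machines and the two grammars
-/

namespace Pool.Agent.TH736.GF

open Pool.Agent.H109R3.CF Pool.Agent.H502.PcSrc

/-- A fixed finite one-number residue machine with an undecidable halting problem. -/
theorem exists_tr' : ∃ (T : List Tr) (p0 : ℕ) (N : ℕ → ℕ), (∀ x ∈ T, x.2.2.1 < x.2.1) ∧
    Computable N ∧ ¬ ComputablePred (fun n => HaltsT T (some p0) (N n)) := by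
  obtain ⟨Q, hQ, M, q0, N, _, hN, h⟩ := exists_sys
  have hf : Finite (RS M) := inferInstance
  let _ : Fintype (RS M) := Fintype.ofFinite _
  let D : DM (RS M) (Bool × Bool) := dm M q0 0
  let e : RS M → ℕ := fun p => (Fintype.equivFin (RS M) p : ℕ)
  have he : Function.Injective e := by
    intro x y hxy
    exact (Fintype.equivFin (RS M)).injective (Fin.ext hxy)
  refine ⟨allT D e, e (.d1 q0 (z0 M)), fun n => 2 ^ N n, ?_, ?_, ?_⟩
  · intro x hx
    rw [mem_allT] at hx
    obtain ⟨p, hp⟩ := hx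
    unfold trs at hp
    rw [List.mem_cons] at hp
    rcases hp with rfl | hp
    · exact (pr_prime _).pos
    · rw [List.mem_map] at hp
      obtain ⟨i, hi, rfl⟩ := hp
      rw [List.mem_range] at hi
      change i + 1 < pr (D.reg p)
      omega
  · have h1 : Primrec (fun n : ℕ => 2 ^ n) := by
      have : Primrec₂ (fun _ n : ℕ => 2 ^ n) := by
        refine (Primrec.nat_rec (f := fun _ : ℕ => 1) (g := fun _ (p : ℕ × ℕ) => 2 * p.2)
          (Primrec.const 1) ?_).of_eq ?_
        · exact (Primrec.nat_mul.comp (Primrec.const 2) (Primrec.snd.comp Primrec.snd))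
        · intro a n
          induction n with
          | zero => rfl
          | succ n ih =>
            simp only at ih ⊢
            rw [ih, pow_succ]
            ring
      exact this.comp (Primrec.const 0) Primrec.id
    exact h1.to_comp.comp hN
  · intro hc
    apply h
    refine hc.of_eq ?_
    intro n
    have h1 := dm_halts_iff M q0 0 q0 (ini (N n))
    rw [← h1]
    have hcode : code (v4 (ini (N n) true) (ini (N n) false) 0 0) = 2 ^ N n := by
      unfold code
      rw [Fintype.prod_prod_type]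
      simp [v4, ini, pr]
    have hnn : ∀ j, 0 ≤ v4 (ini (N n) true : ℤ) (ini (N n) false : ℤ) 0 0 j := by
      rintro ⟨a, b⟩
      cases a <;> cases b <;> simp [v4]
    constructor
    · intro hh
      exact halts_of D e he _ _ hh (some (.d1 q0 (z0 M))) _ hnn rfl hcode.symm
    · rintro ⟨k, hk⟩
      have := of_halts D e k _ _ hnn hk
      rw [hcode] at this
      exact this

/-! ### Sound interpretations of derivations -/

/-- meaning of a word of letters, given languages for the nonterminals -/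
def SemL (LL : ℕ → List ℕ → Prop) : List (Sy ℕ) → List ℕ → Prop
  | [], w => w = []
  | Sum.inr a :: u, w => ∃ w', w = a :: w' ∧ SemL LL u w'
  | Sum.inl A :: u, w => ∃ w1 w2, w = w1 ++ w2 ∧ LL A w1 ∧ SemL LL u w2

theorem semL_of_gen {LL : ℕ → List ℕ → Prop} {P : List (Prd ℕ)}
    (h : ∀ p ∈ P, ∀ w, SemL LL (rhs p) w → LL p.1 w) {u : List (Sy ℕ)} {w : List ℕ}
    (hg : Gen P u w) : SemL LL u w := by
  induction hg with
  | nil => rfl
  | ter a u w _ ih => exact ⟨w, rfl, ih⟩
  | non p u w1 w2 hp _ _ ih1 ih2 => exact ⟨w1, w2, rfl, h p hp w1 ih1, ih2⟩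

theorem sound_single {LL : ℕ → List ℕ → Prop} {P : List (Prd ℕ)}
    (h : ∀ p ∈ P, ∀ w, SemL LL (rhs p) w → LL p.1 w) {A : ℕ} {w : List ℕ}
    (hg : Gen P [Sum.inl A] w) : LL A w := by
  obtain ⟨w1, w2, rfl, h1, h2⟩ := semL_of_gen h hg
  have : w2 = [] := h2
  subst this
  rw [List.append_nil]
  exact h1

theorem semL_replicate {LL : ℕ → List ℕ → Prop} (k a : ℕ) (u : List (Sy ℕ)) (w : List ℕ) :
    SemL LL (List.replicate k (Sum.inr a) ++ u) w ↔ ∃ w', w = List.replicate k a ++ w' ∧
      SemL LL u w' := by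
  induction k generalizing w with
  | zero => simp
  | succ k ih =>
    rw [List.replicate_succ, List.cons_append]
    change (∃ w', w = a :: w' ∧ SemL LL (List.replicate k (Sum.inr a) ++ u) w') ↔ _
    constructor
    · rintro ⟨w', rfl, h⟩
      obtain ⟨w'', rfl, h'⟩ := (ih _).1 h
      exact ⟨w'', by simp [List.replicate_succ], h'⟩
    · rintro ⟨w', rfl, h⟩
      exact ⟨List.replicate k a ++ w', by simp [List.replicate_succ], (ih _).2 ⟨_, rfl, h⟩⟩

theorem semL_inr_map {LL : ℕ → List ℕ → Prop} (v w : List ℕ) :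
    SemL LL (v.map Sum.inr) w ↔ w = v := by
  induction v generalizing w with
  | nil => exact Iff.rfl
  | cons a v ih =>
    change (∃ w', w = a :: w' ∧ SemL LL (v.map Sum.inr) w') ↔ _
    constructor
    · rintro ⟨w', rfl, h⟩
      rw [(ih _).1 h]
    · rintro rfl
      exact ⟨v, rfl, (ih v).2 rfl⟩

/-- letters of generated words occur in the productions -/
theorem letters_of_gen {K : ℕ} {P : List (Prd ℕ)} (h : ∀ p ∈ P, ∀ a, Sum.inr a ∈ rhs p → a < K)
    {u : List (Sy ℕ)} {w : List ℕ} (hg : Gen P u w) (hu : ∀ a, Sum.inr a ∈ u → a < K) :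
    ∀ a ∈ w, a < K := by
  induction hg with
  | nil => simp
  | ter a u w _ ih =>
    intro b hb
    rw [List.mem_cons] at hb
    rcases hb with rfl | hb
    · exact hu _ List.mem_cons_self
    · exact ih (fun a ha => hu a (List.mem_cons_of_mem _ ha)) b hb
  | non p u w1 w2 hp _ _ ih1 ih2 =>
    intro b hb
    rw [List.mem_append] at hb
    rcases hb with hb | hb
    · exact ih1 (h p hp) b hb
    · exact ih2 (fun a ha => hu a (List.mem_cons_of_mem _ ha)) b hb

/-! ### Histories -/

/-- the relation of a transition -/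
def Rel (x : Tr) (a b : ℕ) : Prop :=
  ∃ t, a = x.2.1 * t + x.2.2.1 ∧ b = x.2.2.2.1 * t + x.2.2.2.2.1

/-- number of leading letters `1` -/
def lead : List ℕ → ℕ
  | [] => 0
  | a :: w => if a = 1 then lead w + 1 else 0

/-- all blocks are correct; the first argument counts the letters `1` just read -/
def Okf (T : List Tr) : ℕ → List ℕ → Prop
  | _, [] => True
  | c, a :: w => if a = 1 then Okf T (c + 1) w else
      (∀ i x, a = i + 2 → T[i]? = some x → Rel x c (lead w)) ∧ Okf T 0 w

theorem lead_rep (k : ℕ) (w : List ℕ) : lead (List.replicate k 1 ++ w) = lead w + k := by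
  induction k with
  | zero => rfl
  | succ k ih =>
    rw [List.replicate_succ, List.cons_append]
    simp only [lead, if_pos, ih]
    omega

theorem okf_rep (T : List Tr) (c k : ℕ) (w : List ℕ) :
    Okf T c (List.replicate k 1 ++ w) ↔ Okf T (c + k) w := by
  induction k generalizing c with
  | zero => rfl
  | succ k ih =>
    rw [List.replicate_succ, List.cons_append]
    simp only [Okf, if_pos]
    rw [ih, show c + 1 + k = c + (k + 1) by omega]

theorem okf_tr (T : List Tr) (c i : ℕ) (w : List ℕ) :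
    Okf T c ((i + 2) :: w) ↔ (∀ x, T[i]? = some x → Rel x c (lead w)) ∧ Okf T 0 w := by
  simp only [Okf]
  rw [if_neg (by omega)]
  constructor
  · rintro ⟨h1, h2⟩
    exact ⟨fun x hx => h1 i x rfl hx, h2⟩
  · rintro ⟨h1, h2⟩
    refine ⟨fun j x hj hx => ?_, h2⟩
    obtain rfl : i = j := by omega
    exact h1 x hx

/-- words describing runs (without the leading letters `1`), not necessarily with correct
numbers -/
inductive W (T : List Tr) : Option ℕ → List ℕ → Prop
  | stop : W T none [0]
  | step (i : ℕ) (x : Tr) (k : ℕ) (v : List ℕ) : T[i]? = some x → W T x.2.2.2.2.2 v →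
      W T (some x.1) ((i + 2) :: (List.replicate k 1 ++ v))

theorem W.lead {T : List Tr} {o : Option ℕ} {v : List ℕ} (h : W T o v) : GF.lead v = 0 := by
  cases h with
  | stop => rfl
  | step i x k v h1 h2 => simp only [GF.lead]; rw [if_neg (by omega)]

theorem W.ne {T : List Tr} {o : Option ℕ} {v : List ℕ} (h : W T o v) : v ≠ [] := by
  cases h <;> simp

theorem w_of_halts {T : List Tr} {o : Option ℕ} {a : ℕ} (h : HaltsT T o a) :
    ∃ v, W T o v ∧ Okf T a v := by
  induction h with
  | stop x =>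
    refine ⟨[0], W.stop, ?_⟩
    simp only [Okf]
    rw [if_neg (by omega)]
    exact ⟨fun i x hi => absurd hi (by omega), trivial⟩
  | step p s s0 r r0 o h t _ ih =>
    obtain ⟨v, h1, h2⟩ := ih
    obtain ⟨i, hi, hi'⟩ := List.getElem_of_mem h
    have h3 : T[i]? = some (p, s, s0, r, r0, o) := by
      rw [List.getElem?_eq_getElem hi, hi']
    refine ⟨_, W.step i _ (r * t + r0) v h3 h1, ?_⟩
    rw [okf_tr]
    constructor
    · intro x hx
      rw [h3] at hx
      simp only [Option.some.injEq] at hx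
      subst hx
      rw [lead_rep, h1.lead, Nat.zero_add]
      exact ⟨t, rfl, rfl⟩
    · rw [okf_rep, Nat.zero_add]
      exact h2

theorem halts_of_w {T : List Tr} {o : Option ℕ} {v : List ℕ} (h : W T o v) :
    ∀ a, Okf T a v → HaltsT T o a := by
  induction h with
  | stop => intro a _; exact HaltsT.stop a
  | step i x k v hi hw ih =>
    intro a ha
    rw [okf_tr] at ha
    obtain ⟨h1, h2⟩ := ha
    obtain ⟨t, h3, h4⟩ := h1 x hi
    rw [lead_rep, hw.lead, Nat.zero_add] at h4
    rw [okf_rep, Nat.zero_add] at h2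
    have h5 := ih k h2
    obtain ⟨p, s, s0, r, r0, o⟩ := x
    simp only at h3 h4 h5 ⊢
    rw [h3]
    refine HaltsT.step p s s0 r r0 o ?_ t ?_
    · exact List.mem_of_getElem? hi
    · rw [← h4]
      exact h5

/-! ### The fixed grammar -/

/-- the production `A → u` -/
def pr' (A : ℕ) (u : List (Sy ℕ)) : Prd ℕ := (A, u.headD (Sum.inr 0), u.tail)

theorem rhs_pr' (A : ℕ) {u : List (Sy ℕ)} (hu : u ≠ []) : rhs (pr' A u) = u := by
  rcases u with _ | ⟨x, u⟩
  · exact absurd rfl hu
  · rfl

/-- a block of letters `1` -/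
abbrev zs (k : ℕ) : List (Sy ℕ) := List.replicate k (Sum.inr 1)

/-- nonterminal of a transition -/
abbrev nD (i : ℕ) : ℕ := 2 * i + 13

/-- bound for the small numbers -/
def bd (x : Tr) : ℕ := x.2.1 + x.2.2.2.1 + x.2.2.1 + x.2.2.2.2.1

open scoped Classical in
/-- productions generating incorrect blocks -/
noncomputable def rD (i : ℕ) (x : Tr) : List (Prd ℕ) :=
  pr' (nD i) (zs x.2.1 ++ Sum.inl (nD i) :: zs x.2.2.2.1) ::
  ((List.range (bd x + 1)).flatMap fun a => (List.range (bd x + 1)).flatMap fun b =>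
    (if ¬ Rel x a b then [pr' (nD i) (zs a ++ Sum.inr (i + 2) :: zs b)] else []) ++
    ((if ∀ m, 0 < m → ¬ Rel x a (b + m) then
      [pr' (nD i) (zs a ++ Sum.inr (i + 2) :: (zs b ++ [Sum.inl 11]))] else []) ++
    (if ∀ m, 0 < m → ¬ Rel x (a + m) b then
      [pr' (nD i) (Sum.inl 11 :: (zs a ++ Sum.inr (i + 2) :: zs b))] else [])))

theorem mem_rD {i : ℕ} {x : Tr} {p : Prd ℕ} : p ∈ rD i x ↔
    p = pr' (nD i) (zs x.2.1 ++ Sum.inl (nD i) :: zs x.2.2.2.1) ∨
    ∃ a b, a ≤ bd x ∧ b ≤ bd x ∧
      ((¬ Rel x a b ∧ p = pr' (nD i) (zs a ++ Sum.inr (i + 2) :: zs b)) ∨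
       ((∀ m, 0 < m → ¬ Rel x a (b + m)) ∧
          p = pr' (nD i) (zs a ++ Sum.inr (i + 2) :: (zs b ++ [Sum.inl 11]))) ∨
       ((∀ m, 0 < m → ¬ Rel x (a + m) b) ∧
          p = pr' (nD i) (Sum.inl 11 :: (zs a ++ Sum.inr (i + 2) :: zs b)))) := by
  classical
  unfold rD
  rw [List.mem_cons]
  refine or_congr Iff.rfl ?_
  simp only [List.mem_flatMap, List.mem_range, List.mem_append, Nat.lt_succ_iff]
  constructor
  · rintro ⟨a, ha, b, hb, h⟩
    refine ⟨a, b, ha, hb, ?_⟩
    rcases h with h | h | h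
    · split_ifs at h with h1
      · simp at h
      · rw [List.mem_singleton] at h
        exact Or.inl ⟨h1, h⟩
    · split_ifs at h with h1
      · rw [List.mem_singleton] at h
        exact Or.inr (Or.inl ⟨h1, h⟩)
      · simp at h
    · split_ifs at h with h1
      · rw [List.mem_singleton] at h
        exact Or.inr (Or.inr ⟨h1, h⟩)
      · simp at h
  · rintro ⟨a, b, ha, hb, h⟩
    refine ⟨a, ha, b, hb, ?_⟩
    rcases h with ⟨h1, h⟩ | ⟨h1, h⟩ | ⟨h1, h⟩
    · left; rw [if_pos h1]; exact List.mem_singleton.2 h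
    · right; left; rw [if_pos h1]; exact List.mem_singleton.2 h
    · right; right; rw [if_pos h1]; exact List.mem_singleton.2 h

/-- the special word -/
def w0 (T : List Tr) : List ℕ := List.range (T.length + 2)

/-- productions for a transition, other than those of `rD` -/
def rT (i : ℕ) : List (Prd ℕ) :=
  [(3, Sum.inl (nD i), [Sum.inl 7]), (5, Sum.inr (i + 2), []), (7, Sum.inr (i + 2), [Sum.inl 9])]

/-- the fixed productions -/
noncomputable def P1 (T : List Tr) : List (Prd ℕ) :=
  [pr' 1 ((w0 T).map Sum.inr),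
   pr' 1 (List.replicate (T.length + 2) (Sum.inr 0) ++ [Sum.inl 3]),
   (3, Sum.inl 5, [Sum.inl 3]), (5, Sum.inr 1, [Sum.inl 5]), (7, Sum.inr 0, []),
   (9, Sum.inr 1, [Sum.inl 9]), (9, Sum.inl 7, []), (11, Sum.inr 1, []),
   (11, Sum.inr 1, [Sum.inl 11])] ++
  (List.range T.length).flatMap (fun i => rT i ++ (T[i]?).toList.flatMap (fun x => rD i x))

theorem mem_P1 {T : List Tr} {p : Prd ℕ} : p ∈ P1 T ↔
    p = pr' 1 ((w0 T).map Sum.inr) ∨
    p = pr' 1 (List.replicate (T.length + 2) (Sum.inr 0) ++ [Sum.inl 3]) ∨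
    p = (3, Sum.inl 5, [Sum.inl 3]) ∨ p = (5, Sum.inr 1, [Sum.inl 5]) ∨ p = (7, Sum.inr 0, []) ∨
    p = (9, Sum.inr 1, [Sum.inl 9]) ∨ p = (9, Sum.inl 7, []) ∨ p = (11, Sum.inr 1, []) ∨
    p = (11, Sum.inr 1, [Sum.inl 11]) ∨
    ∃ i x, T[i]? = some x ∧ (p = (3, Sum.inl (nD i), [Sum.inl 7]) ∨ p = (5, Sum.inr (i + 2), []) ∨
      p = (7, Sum.inr (i + 2), [Sum.inl 9]) ∨ p ∈ rD i x) := by
  unfold P1
  rw [List.mem_append, List.mem_flatMap]
  simp only [List.mem_cons, List.not_mem_nil, or_false, or_assoc]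
  refine or_congr Iff.rfl (or_congr Iff.rfl (or_congr Iff.rfl (or_congr Iff.rfl
    (or_congr Iff.rfl (or_congr Iff.rfl (or_congr Iff.rfl (or_congr Iff.rfl
    (or_congr Iff.rfl ?_))))))))
  constructor
  · rintro ⟨i, hi, h⟩
    rw [List.mem_range] at hi
    have h1 : T[i]? = some T[i] := List.getElem?_eq_getElem hi
    refine ⟨i, T[i], h1, ?_⟩
    rw [List.mem_append] at h
    rcases h with h | h
    · simp only [rT, List.mem_cons, List.not_mem_nil, or_false] at h
      rcases h with h | h | h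
      · exact Or.inl h
      · exact Or.inr (Or.inl h)
      · exact Or.inr (Or.inr (Or.inl h))
    · rw [h1] at h
      simp only [Option.toList_some, List.flatMap_cons, List.flatMap_nil, List.append_nil] at h
      exact Or.inr (Or.inr (Or.inr h))
  · rintro ⟨i, x, hx, h⟩
    have hi : i < T.length := by
      by_contra hc
      rw [List.getElem?_eq_none (by omega)] at hx
      simp at hx
    refine ⟨i, List.mem_range.2 hi, ?_⟩
    rw [List.mem_append, hx]
    simp only [Option.toList_some, List.flatMap_cons, List.flatMap_nil, List.append_nil]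
    rcases h with h | h | h | h
    · left; simp [rT, h]
    · left; simp [rT, h]
    · left; simp [rT, h]
    · right; exact h

end Pool.Agent.TH736.GF
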