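import Mathlib
import Pool.Agent.TH736.GF.Hist

set_option autoImplicit false

/-!
# Soundness and completeness of the grammar of incorrect histories
-/

namespace Pool.Agent.TH736.GF

open Pool.Agent.H109R3.CF

/-- the languages of the nonterminals -/
def LL (T : List Tr) (A : ℕ) (w : List ℕ) : Prop :=
  (A = 1 → w = w0 T ∨ ∃ y, w = List.replicate (T.length + 2) 0 ++ y ∧ ¬ Okf T 0 y) ∧
  (A = 3 → ¬ Okf T 0 w) ∧
  (A = 5 → ∃ k i, w = List.replicate k 1 ++ [i + 2]) ∧
  (A = 7 → lead w = 0) ∧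
  (A = 11 → ∃ k, w = List.replicate k 1 ∧ 0 < k) ∧
  (∀ i, A = nD i → ∃ x a b, T[i]? = some x ∧
    w = List.replicate a 1 ++ (i + 2) :: List.replicate b 1 ∧ ¬ Rel x a b)

theorem LL_1 {T : List Tr} {w : List ℕ} : LL T 1 w ↔
    (w = w0 T ∨ ∃ y, w = List.replicate (T.length + 2) 0 ++ y ∧ ¬ Okf T 0 y) := by
  constructor
  · intro h; exact h.1 rfl
  · intro h
    exact ⟨fun _ => h, fun h => absurd h (by omega), fun h => absurd h (by omega),
      fun h => absurd h (by omega), fun h => absurd h (by omega), fun i h => absurd h (by unfold nD; omega)⟩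

theorem LL_3 {T : List Tr} {w : List ℕ} : LL T 3 w ↔ ¬ Okf T 0 w := by
  constructor
  · intro h; exact h.2.1 rfl
  · intro h
    exact ⟨fun h => absurd h (by omega), fun _ => h, fun h => absurd h (by omega),
      fun h => absurd h (by omega), fun h => absurd h (by omega), fun i h => absurd h (by unfold nD; omega)⟩

theorem LL_5 {T : List Tr} {w : List ℕ} : LL T 5 w ↔ ∃ k i, w = List.replicate k 1 ++ [i + 2] := by
  constructor
  · intro h; exact h.2.2.1 rfl
  · intro h
    exact ⟨fun h => absurd h (by omega), fun h => absurd h (by omega), fun _ => h,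
      fun h => absurd h (by omega), fun h => absurd h (by omega), fun i h => absurd h (by unfold nD; omega)⟩

theorem LL_7 {T : List Tr} {w : List ℕ} : LL T 7 w ↔ lead w = 0 := by
  constructor
  · intro h; exact h.2.2.2.1 rfl
  · intro h
    exact ⟨fun h => absurd h (by omega), fun h => absurd h (by omega), fun h => absurd h (by omega),
      fun _ => h, fun h => absurd h (by omega), fun i h => absurd h (by unfold nD; omega)⟩

theorem LL_9 {T : List Tr} {w : List ℕ} : LL T 9 w :=
  ⟨fun h => absurd h (by omega), fun h => absurd h (by omega), fun h => absurd h (by omega),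
      fun h => absurd h (by omega), fun h => absurd h (by omega), fun i h => absurd h (by unfold nD; omega)⟩

theorem LL_11 {T : List Tr} {w : List ℕ} : LL T 11 w ↔ ∃ k, w = List.replicate k 1 ∧ 0 < k := by
  constructor
  · intro h; exact h.2.2.2.2.1 rfl
  · intro h
    exact ⟨fun h => absurd h (by omega), fun h => absurd h (by omega), fun h => absurd h (by omega),
      fun h => absurd h (by omega), fun _ => h, fun i h => absurd h (by unfold nD; omega)⟩

theorem LL_D {T : List Tr} {i : ℕ} {w : List ℕ} : LL T (nD i) w ↔ ∃ x a b, T[i]? = some x ∧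
    w = List.replicate a 1 ++ (i + 2) :: List.replicate b 1 ∧ ¬ Rel x a b := by
  constructor
  · intro h; exact h.2.2.2.2.2 i rfl
  · intro h
    refine ⟨fun h => absurd h (by unfold nD; omega), fun h => absurd h (by unfold nD; omega),
      fun h => absurd h (by unfold nD; omega), fun h => absurd h (by unfold nD; omega),
      fun h => absurd h (by unfold nD; omega), fun j hj => ?_⟩
    obtain rfl : i = j := by unfold nD at hj; omega
    exact h

theorem rel_sub {x : Tr} {a b : ℕ} (hx : x.2.2.1 < x.2.1)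
    (h : Rel x (x.2.1 + a) (b + x.2.2.2.1)) : Rel x a b := by
  obtain ⟨t, h1, h2⟩ := h
  rcases t with _ | t
  · simp only [Nat.mul_zero] at h1
    omega
  · refine ⟨t, ?_, ?_⟩
    · rw [Nat.mul_succ] at h1; omega
    · rw [Nat.mul_succ] at h2; omega

theorem rel_add {x : Tr} {a b : ℕ} (h : Rel x a b) : Rel x (x.2.1 + a) (b + x.2.2.2.1) := by
  obtain ⟨t, h1, h2⟩ := h
  refine ⟨t + 1, ?_, ?_⟩
  · rw [Nat.mul_succ]; omega
  · rw [Nat.mul_succ]; omega

theorem okf_block {T : List Tr} {a i b : ℕ} {x : Tr} {v : List ℕ} (hx : T[i]? = some x)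
    (hv : lead v = 0) (h : ¬ Rel x a b) :
    ¬ Okf T 0 ((List.replicate a 1 ++ (i + 2) :: List.replicate b 1) ++ v) := by
  rw [List.append_assoc, okf_rep, List.cons_append, okf_tr]
  rintro ⟨h1, -⟩
  have := h1 x hx
  rw [lead_rep, hv, Nat.zero_add, Nat.zero_add] at this
  exact h this

theorem sound_P1 {T : List Tr} (hT : ∀ x ∈ T, x.2.2.1 < x.2.1) :
    ∀ p ∈ P1 T, ∀ w, SemL (LL T) (rhs p) w → LL T p.1 w := by
  intro p hp w hw
  rw [mem_P1] at hp
  rcases hp with rfl | rfl | rfl | rfl | rfl | rfl | rfl | rfl | rfl | ⟨i, x, hx, hp⟩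
  · rw [rhs_pr' _ (by simp [w0]), semL_inr_map] at hw
    change LL T 1 w
    rw [LL_1]
    exact Or.inl hw
  · rw [rhs_pr' _ (by simp), semL_replicate] at hw
    obtain ⟨w', rfl, w1, w2, rfl, h1, rfl⟩ := hw
    change LL T 1 _
    rw [LL_1]
    rw [LL_3] at h1
    exact Or.inr ⟨w1, by simp, h1⟩
  · obtain ⟨w1, w2, rfl, h1, w3, w4, rfl, h2, rfl⟩ := hw
    change LL T 3 _
    rw [LL_5] at h1
    rw [LL_3] at h2 ⊢
    obtain ⟨k, i, rfl⟩ := h1
    rw [List.append_assoc, okf_rep]
    simp only [List.append_nil]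
    rw [List.cons_append, okf_tr]
    exact fun h => h2 h.2
  · obtain ⟨w1, rfl, w3, w4, rfl, h2, rfl⟩ := hw
    change LL T 5 _
    rw [LL_5] at h2 ⊢
    obtain ⟨k, i, rfl⟩ := h2
    exact ⟨k + 1, i, by simp [List.replicate_succ]⟩
  · obtain ⟨w1, rfl, rfl⟩ := hw
    change LL T 7 _
    rw [LL_7]
    rfl
  · exact LL_9
  · exact LL_9
  · obtain ⟨w1, rfl, rfl⟩ := hw
    change LL T 11 _
    rw [LL_11]
    exact ⟨1, rfl, by omega⟩
  · obtain ⟨w1, rfl, w3, w4, rfl, h2, rfl⟩ := hw
    change LL T 11 _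
    rw [LL_11] at h2 ⊢
    obtain ⟨k, rfl, _⟩ := h2
    exact ⟨k + 1, by simp [List.replicate_succ], by omega⟩
  · have hxT : x ∈ T := List.mem_of_getElem? hx
    have hsx := hT x hxT
    rcases hp with rfl | rfl | rfl | hp
    · obtain ⟨w1, w2, rfl, h1, w3, w4, rfl, h2, rfl⟩ := hw
      change LL T 3 _
      rw [LL_D] at h1
      rw [LL_7] at h2
      rw [LL_3]
      obtain ⟨x', a, b, hx', rfl, h3⟩ := h1
      rw [List.append_nil]
      exact okf_block hx' h2 h3
    · obtain ⟨w1, rfl, rfl⟩ := hw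
      change LL T 5 _
      rw [LL_5]
      exact ⟨0, i, rfl⟩
    · obtain ⟨w1, rfl, w3, w4, rfl, h2, rfl⟩ := hw
      change LL T 7 _
      rw [LL_7]
      simp only [lead]
      rw [if_neg (by omega)]
    · rw [mem_rD] at hp
      rcases hp with rfl | ⟨a, b, ha, hb, ⟨h1, rfl⟩ | ⟨h1, rfl⟩ | ⟨h1, rfl⟩⟩
      · rw [rhs_pr' _ (by simp), semL_replicate] at hw
        obtain ⟨w', rfl, w1, w2, rfl, h1, h2⟩ := hw
        change LL T (nD i) _
        rw [LL_D] at h1 ⊢
        obtain ⟨x', a, b, hx', rfl, h3⟩ := h1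
        rw [hx] at hx'
        simp only [Option.some.injEq] at hx'
        subst hx'
        rw [← List.append_nil (zs _), semL_replicate] at h2
        obtain ⟨w', rfl, rfl⟩ := h2
        refine ⟨x, x.2.1 + a, b + x.2.2.2.1, hx, ?_, fun hr => h3 (rel_sub hsx hr)⟩
        rw [List.replicate_add, List.replicate_add]
        simp only [List.append_nil, List.append_assoc, List.cons_append]
      · rw [rhs_pr' _ (by simp), semL_replicate] at hw
        obtain ⟨w', rfl, w1, rfl, h2⟩ := hw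
        change LL T (nD i) _
        rw [← List.append_nil (zs _), semL_replicate] at h2
        obtain ⟨w', rfl, rfl⟩ := h2
        rw [LL_D]
        exact ⟨x, a, b, hx, by simp, h1⟩
      · rw [rhs_pr' _ (by simp), semL_replicate] at hw
        obtain ⟨w', rfl, w1, rfl, h2⟩ := hw
        change LL T (nD i) _
        rw [semL_replicate] at h2
        obtain ⟨w', rfl, w3, w4, rfl, h4, rfl⟩ := h2
        rw [LL_11] at h4
        obtain ⟨k, rfl, hk⟩ := h4
        rw [LL_D]
        refine ⟨x, a, b + k, hx, ?_, h1 k hk⟩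
        rw [List.replicate_add, List.append_nil]
      · rw [rhs_pr' _ (by simp)] at hw
        obtain ⟨w3, w4, rfl, h4, hw⟩ := hw
        rw [semL_replicate] at hw
        obtain ⟨w', rfl, w1, rfl, h2⟩ := hw
        change LL T (nD i) _
        rw [← List.append_nil (zs _), semL_replicate] at h2
        obtain ⟨w', rfl, rfl⟩ := h2
        rw [LL_11] at h4
        obtain ⟨k, rfl, hk⟩ := h4
        rw [LL_D]
        refine ⟨x, a + k, b, hx, ?_, h1 k hk⟩
        rw [Nat.add_comm a k, List.replicate_add, List.append_nil, List.append_assoc]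

/-- Words generated by the fixed grammar. -/
theorem sound_S1 {T : List Tr} (hT : ∀ x ∈ T, x.2.2.1 < x.2.1) {w : List ℕ}
    (h : Gen (P1 T) [Sum.inl 1] w) :
    w = w0 T ∨ ∃ y, w = List.replicate (T.length + 2) 0 ++ y ∧ ¬ Okf T 0 y :=
  LL_1.1 (sound_single (sound_P1 hT) h)

/-! ### Completeness -/

theorem gen_zs {P : List (Prd ℕ)} {k : ℕ} {u : List (Sy ℕ)} {w : List ℕ} (h : Gen P u w) :
    Gen P (zs k ++ u) (List.replicate k 1 ++ w) := (gen_replicate _ _ _ _).2 ⟨w, rfl, h⟩

theorem gen_zs' {P : List (Prd ℕ)} {k : ℕ} : Gen P (zs k) (List.replicate k 1) := by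
  have := gen_zs (P := P) (k := k) Gen.nil
  simpa using this

theorem gen_Z {T : List Tr} (k : ℕ) (hk : 0 < k) :
    Gen (P1 T) [Sum.inl 11] (List.replicate k 1) := by
  induction k with
  | zero => omega
  | succ k ih =>
    rw [gen_single]
    rcases k with _ | k
    · exact ⟨(11, Sum.inr 1, []), by rw [mem_P1]; simp, rfl, Gen.ter _ _ _ Gen.nil⟩
    · refine ⟨(11, Sum.inr 1, [Sum.inl 11]), by rw [mem_P1]; simp, rfl, ?_⟩
      exact Gen.ter _ _ _ (ih (by omega))

theorem gen_D {T : List Tr} (hT : ∀ x ∈ T, x.2.2.1 < x.2.1) {i : ℕ} {x : Tr}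
    (hx : T[i]? = some x) : ∀ n a b, a ≤ n → ¬ Rel x a b →
      Gen (P1 T) [Sum.inl (nD i)] (List.replicate a 1 ++ (i + 2) :: List.replicate b 1) := by
  have hxT : x ∈ T := List.mem_of_getElem? hx
  have hsx := hT x hxT
  have hmem : ∀ p, p ∈ rD i x → p ∈ P1 T := by
    intro p hp
    rw [mem_P1]
    exact Or.inr (Or.inr (Or.inr (Or.inr (Or.inr (Or.inr (Or.inr (Or.inr (Or.inr
      ⟨i, x, hx, Or.inr (Or.inr (Or.inr hp))⟩))))))))
  intro n
  induction n using Nat.strong_induction_on with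
  | _ n ih =>
    intro a b han hr
    by_cases h1 : a ≤ bd x ∧ b ≤ bd x
    · rw [gen_single]
      refine ⟨pr' (nD i) (zs a ++ Sum.inr (i + 2) :: zs b), hmem _ ?_, rfl, ?_⟩
      · rw [mem_rD]
        exact Or.inr ⟨a, b, h1.1, h1.2, Or.inl ⟨hr, rfl⟩⟩
      · rw [rhs_pr' _ (by simp)]
        exact gen_zs (Gen.ter _ _ _ gen_zs')
    by_cases h2 : x.2.1 ≤ a ∧ x.2.2.2.1 ≤ b
    · obtain ⟨h2, h3⟩ := h2
      obtain ⟨a', rfl⟩ := Nat.exists_eq_add_of_le h2
      obtain ⟨b', rfl⟩ := Nat.exists_eq_add_of_le h3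
      have hr' : ¬ Rel x a' b' := by
        intro h
        apply hr
        rw [Nat.add_comm x.2.2.2.1 b']
        exact rel_add h
      have h4 := ih a' (by omega) a' b' le_rfl hr'
      rw [gen_single]
      refine ⟨pr' (nD i) (zs x.2.1 ++ Sum.inl (nD i) :: zs x.2.2.2.1), hmem _ ?_, rfl, ?_⟩
      · rw [mem_rD]
        exact Or.inl rfl
      · rw [rhs_pr' _ (by simp)]
        have h5 : Gen (P1 T) (Sum.inl (nD i) :: zs x.2.2.2.1)
            ((List.replicate a' 1 ++ (i + 2) :: List.replicate b' 1) ++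
              List.replicate x.2.2.2.1 1) := gen_cons.2 ⟨_, _, rfl, h4, gen_zs'⟩
        have h6 := gen_zs (k := x.2.1) h5
        convert h6 using 1
        rw [List.replicate_add, Nat.add_comm x.2.2.2.1 b', List.replicate_add]
        simp only [List.append_assoc, List.cons_append]
    by_cases h3 : a < x.2.1
    · -- then `b` is large
      have hab : a ≤ bd x := by unfold bd; omega
      have hb : bd x < b := by
        by_contra hc
        exact h1 ⟨hab, by omega⟩
      have hno : ∀ m, 0 < m → ¬ Rel x a (bd x + m) := by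
        rintro m hm ⟨t, h4, h5⟩
        rcases t with _ | t
        · unfold bd at h5
          omega
        · rw [Nat.mul_succ] at h4
          omega
      obtain ⟨m, rfl⟩ := Nat.exists_eq_add_of_lt hb
      rw [gen_single]
      refine ⟨pr' (nD i) (zs a ++ Sum.inr (i + 2) :: (zs (bd x) ++ [Sum.inl 11])), hmem _ ?_,
        rfl, ?_⟩
      · rw [mem_rD]
        exact Or.inr ⟨a, bd x, hab, le_rfl, Or.inr (Or.inl ⟨hno, rfl⟩)⟩
      · rw [rhs_pr' _ (by simp), Nat.add_assoc (bd x) m 1, List.replicate_add]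
        exact gen_zs (Gen.ter _ _ _ (gen_zs (gen_Z _ (by omega))))
    · have hb : b < x.2.2.2.1 := by
        by_contra hc
        exact h2 ⟨by omega, by omega⟩
      have hbb : b ≤ bd x := by unfold bd; omega
      have ha : bd x < a := by
        by_contra hc
        exact h1 ⟨by omega, hbb⟩
      have hno : ∀ m, 0 < m → ¬ Rel x (bd x + m) b := by
        rintro m hm ⟨t, h4, h5⟩
        rcases t with _ | t
        · unfold bd at h4
          omega
        · rw [Nat.mul_succ] at h5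
          omega
      obtain ⟨m, rfl⟩ := Nat.exists_eq_add_of_lt ha
      rw [gen_single]
      refine ⟨pr' (nD i) (Sum.inl 11 :: (zs (bd x) ++ Sum.inr (i + 2) :: zs b)), hmem _ ?_,
        rfl, ?_⟩
      · rw [mem_rD]
        exact Or.inr ⟨bd x, b, le_rfl, hbb, Or.inr (Or.inr ⟨hno, rfl⟩)⟩
      · rw [rhs_pr' _ (by simp), show bd x + m + 1 = (m + 1) + bd x by omega, List.replicate_add,
          List.append_assoc]
        exact gen_cons.2 ⟨_, _, rfl, gen_Z _ (by omega), gen_zs (Gen.ter _ _ _ gen_zs')⟩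

theorem gen_U {T : List Tr} {v : List ℕ} (k : ℕ) (h : Gen (P1 T) [Sum.inl 7] v) :
    Gen (P1 T) [Sum.inl 9] (List.replicate k 1 ++ v) := by
  induction k with
  | zero =>
    rw [gen_single]
    exact ⟨(9, Sum.inl 7, []), by rw [mem_P1]; simp, rfl, h⟩
  | succ k ih =>
    rw [gen_single]
    exact ⟨(9, Sum.inr 1, [Sum.inl 9]), by rw [mem_P1]; simp, rfl, Gen.ter _ _ _ ih⟩

theorem gen_F {T : List Tr} {o : Option ℕ} {v : List ℕ} (h : W T o v) :
    Gen (P1 T) [Sum.inl 7] v := by
  induction h with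
  | stop =>
    rw [gen_single]
    exact ⟨(7, Sum.inr 0, []), by rw [mem_P1]; simp, rfl, Gen.ter _ _ _ Gen.nil⟩
  | step i x k v hx _ ih =>
    rw [gen_single]
    refine ⟨(7, Sum.inr (i + 2), [Sum.inl 9]), ?_, rfl, Gen.ter _ _ _ (gen_U k ih)⟩
    rw [mem_P1]
    exact Or.inr (Or.inr (Or.inr (Or.inr (Or.inr (Or.inr (Or.inr (Or.inr (Or.inr
      ⟨i, x, hx, Or.inr (Or.inr (Or.inl rfl))⟩))))))))

theorem gen_M {T : List Tr} {i : ℕ} {x : Tr} (hx : T[i]? = some x) (k : ℕ) :
    Gen (P1 T) [Sum.inl 5] (List.replicate k 1 ++ [i + 2]) := by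
  induction k with
  | zero =>
    rw [gen_single]
    refine ⟨(5, Sum.inr (i + 2), []), ?_, rfl, Gen.ter _ _ _ Gen.nil⟩
    rw [mem_P1]
    exact Or.inr (Or.inr (Or.inr (Or.inr (Or.inr (Or.inr (Or.inr (Or.inr (Or.inr
      ⟨i, x, hx, Or.inr (Or.inl rfl)⟩))))))))
  | succ k ih =>
    rw [gen_single]
    exact ⟨(5, Sum.inr 1, [Sum.inl 5]), by rw [mem_P1]; simp, rfl, Gen.ter _ _ _ ih⟩

theorem gen_B {T : List Tr} (hT : ∀ x ∈ T, x.2.2.1 < x.2.1) {o : Option ℕ} {v : List ℕ}
    (h : W T o v) : ∀ a, ¬ Okf T a v → Gen (P1 T) [Sum.inl 3] (List.replicate a 1 ++ v) := by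
  induction h with
  | stop =>
    intro a ha
    exfalso
    apply ha
    simp only [Okf]
    rw [if_neg (by omega)]
    exact ⟨fun i x hi => absurd hi (by omega), trivial⟩
  | step i x k v hx hv ih =>
    intro a ha
    by_cases hr : Rel x a k
    · have h1 : ¬ Okf T k v := by
        intro h2
        apply ha
        rw [okf_tr]
        refine ⟨fun x' hx' => ?_, ?_⟩
        · rw [hx] at hx'
          simp only [Option.some.injEq] at hx'
          subst hx'
          rw [lead_rep, hv.lead, Nat.zero_add]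
          exact hr
        · rw [okf_rep, Nat.zero_add]
          exact h2
      rw [gen_single]
      refine ⟨(3, Sum.inl 5, [Sum.inl 3]), by rw [mem_P1]; simp, rfl, ?_⟩
      change Gen (P1 T) [Sum.inl 5, Sum.inl 3] _
      rw [gen_cons]
      exact ⟨List.replicate a 1 ++ [i + 2], List.replicate k 1 ++ v, by simp, gen_M hx a, ih k h1⟩
    · rw [gen_single]
      refine ⟨(3, Sum.inl (nD i), [Sum.inl 7]), ?_, rfl, ?_⟩
      · rw [mem_P1]
        exact Or.inr (Or.inr (Or.inr (Or.inr (Or.inr (Or.inr (Or.inr (Or.inr (Or.inr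
          ⟨i, x, hx, Or.inl rfl⟩))))))))
      · change Gen (P1 T) [Sum.inl (nD i), Sum.inl 7] _
        rw [gen_cons]
        exact ⟨List.replicate a 1 ++ (i + 2) :: List.replicate k 1, v, by simp,
          gen_D hT hx a a k le_rfl hr, gen_F hv⟩

theorem gen_S1 {T : List Tr} (hT : ∀ x ∈ T, x.2.2.1 < x.2.1) {o : Option ℕ} {v : List ℕ} {a : ℕ}
    (h : W T o v) (ha : ¬ Okf T a v) : Gen (P1 T) [Sum.inl 1]
      (List.replicate (T.length + 2) 0 ++ (List.replicate a 1 ++ v)) := by
  rw [gen_single]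
  refine ⟨pr' 1 (List.replicate (T.length + 2) (Sum.inr 0) ++ [Sum.inl 3]), ?_, rfl, ?_⟩
  · rw [mem_P1]
    exact Or.inr (Or.inl rfl)
  · rw [rhs_pr' _ (by simp), gen_replicate]
    exact ⟨_, rfl, gen_B hT h a ha⟩

theorem gen_w0 (T : List Tr) : Gen (P1 T) [Sum.inl 1] (w0 T) := by
  rw [gen_single]
  refine ⟨pr' 1 ((w0 T).map Sum.inr), ?_, rfl, ?_⟩
  · rw [mem_P1]
    exact Or.inl rfl
  · rw [rhs_pr' _ (by simp [w0])]
    exact gen_map_inr _

end Pool.Agent.TH736.GF
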