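import Mathlib
import Pool.Agent.TH736.GF.Hist2

set_option autoImplicit false

/-!
# Undecidability of family equivalence
-/

namespace Pool.Agent.TH736.GF

open Pool.Agent.H109R3.CF

/-- nonterminal of a state -/
def aN : Option ℕ → ℕ
  | none => 4
  | some p => 4 * p + 8

/-- nonterminals of the initial chain -/
def cN (k : ℕ) : ℕ := 4 * k + 2

theorem aN_inj {o o' : Option ℕ} (h : aN o = aN o') : o = o' := by
  rcases o with _ | p <;> rcases o' with _ | p' <;> simp only [aN] at h
  · rfl
  · omega
  · omega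
  · congr 1; omega

theorem aN_ne_cN {o : Option ℕ} {k : ℕ} : aN o ≠ cN k := by
  rcases o with _ | p <;> simp only [aN, cN] <;> omega

/-- productions of a transition in the right-linear part -/
def rR (p0 i : ℕ) (x : Tr) : List (Prd ℕ) :=
  [(aN (some x.1), Sum.inr (i + 2), [Sum.inl (aN x.2.2.2.2.2)]),
   (aN (some x.1), Sum.inr 1, [Sum.inl (aN (some x.1))])] ++
  (if x.1 = p0 then [(cN 0, Sum.inr (i + 2), [Sum.inl (aN x.2.2.2.2.2)])] else [])

/-- the fixed productions of the right-linear part -/
def baseR (T : List Tr) (p0 : ℕ) : List (Prd ℕ) :=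
  [(aN none, Sum.inr 1, [Sum.inl (aN none)]), (aN none, Sum.inr 0, [])] ++
  (List.range T.length).flatMap (fun i => (T[i]?).toList.flatMap (fun x => rR p0 i x))

/-- the variable productions of the right-linear part -/
def chain (L N : ℕ) : List (Prd ℕ) :=
  (List.range (L + N)).map (fun k => (cN (k + 1), Sum.inr (if k < N then 1 else 0),
    [Sum.inl (cN k)]))

/-- the right-linear part -/
def PR (T : List Tr) (p0 N : ℕ) : List (Prd ℕ) := chain (T.length + 2) N ++ baseR T p0

theorem mem_PR {T : List Tr} {p0 N : ℕ} {p : Prd ℕ} : p ∈ PR T p0 N ↔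
    (∃ k < T.length + 2 + N, p = (cN (k + 1), Sum.inr (if k < N then 1 else 0),
      [Sum.inl (cN k)])) ∨
    p = (aN none, Sum.inr 1, [Sum.inl (aN none)]) ∨ p = (aN none, Sum.inr 0, []) ∨
    ∃ i x, T[i]? = some x ∧
      (p = (aN (some x.1), Sum.inr (i + 2), [Sum.inl (aN x.2.2.2.2.2)]) ∨
       p = (aN (some x.1), Sum.inr 1, [Sum.inl (aN (some x.1))]) ∨
       (x.1 = p0 ∧ p = (cN 0, Sum.inr (i + 2), [Sum.inl (aN x.2.2.2.2.2)]))) := by
  unfold PR chain baseR
  rw [List.mem_append, List.mem_map, List.mem_append, List.mem_flatMap]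
  simp only [List.mem_cons, List.not_mem_nil, or_false, or_assoc]
  refine or_congr ?_ (or_congr Iff.rfl (or_congr Iff.rfl ?_))
  · constructor
    · rintro ⟨k, hk, rfl⟩
      exact ⟨k, List.mem_range.1 hk, rfl⟩
    · rintro ⟨k, hk, rfl⟩
      exact ⟨k, List.mem_range.2 hk, rfl⟩
  · constructor
    · rintro ⟨i, hi, h⟩
      rw [List.mem_range] at hi
      have h1 : T[i]? = some T[i] := List.getElem?_eq_getElem hi
      refine ⟨i, T[i], h1, ?_⟩
      rw [h1] at h
      simp only [Option.toList_some, List.flatMap_cons, List.flatMap_nil, List.append_nil] at h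
      unfold rR at h
      rw [List.mem_append] at h
      simp only [List.mem_cons, List.not_mem_nil, or_false] at h
      rcases h with (h | h) | h
      · exact Or.inl h
      · exact Or.inr (Or.inl h)
      · split_ifs at h with h2
        · rw [List.mem_singleton] at h
          exact Or.inr (Or.inr ⟨h2, h⟩)
        · simp at h
    · rintro ⟨i, x, hx, h⟩
      have hi : i < T.length := by
        by_contra hc
        rw [List.getElem?_eq_none (by omega)] at hx
        simp at hx
      refine ⟨i, List.mem_range.2 hi, ?_⟩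
      rw [hx]
      simp only [Option.toList_some, List.flatMap_cons, List.flatMap_nil, List.append_nil]
      unfold rR
      rw [List.mem_append]
      rcases h with h | h | ⟨h2, h⟩
      · left; simp [h]
      · left; simp [h]
      · right; rw [if_pos h2, List.mem_singleton]; exact h

/-- predicates of the nonterminals -/
def U1 (A : ℕ) : Prop := A % 2 = 1

/-- predicates of the nonterminals -/
def U2 (A : ℕ) : Prop := A % 2 = 0 ∧ A ≠ 0

theorem U2_aN (o : Option ℕ) : U2 (aN o) := by
  rcases o with _ | p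
  · exact ⟨rfl, by decide⟩
  · constructor
    · simp only [aN]; omega
    · simp only [aN]; omega

theorem U2_cN (k : ℕ) : U2 (cN k) := by
  simp only [cN, U2]; omega

theorem nt_zs {A : ℕ} (k : ℕ) (u : List (Sy ℕ)) : Sum.inl A ∈ zs k ++ u ↔ Sum.inl A ∈ u := by
  rw [List.mem_append]
  constructor
  · rintro (h | h)
    · simp [List.mem_replicate] at h
    · exact h
  · exact Or.inr

theorem nt_zs' {A : ℕ} (k : ℕ) : ¬ (Sum.inl A : Sy ℕ) ∈ zs k := by
  intro h
  simp [List.mem_replicate] at h

theorem parts (T : List Tr) (p0 N : ℕ) :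
    Parts 0 1 (cN (T.length + 2 + N)) (P1 T) (PR T p0 N) U1 U2 where
  hS1 := by simp [U1]
  hSR := U2_cN _
  nS1 := by simp [U1]
  nS2 := by simp [U2]
  disj := by intro A h1 h2; unfold U1 at h1; unfold U2 at h2; omega
  h1 := by
    intro p hp
    rw [mem_P1] at hp
    rcases hp with rfl | rfl | rfl | rfl | rfl | rfl | rfl | rfl | rfl | ⟨i, x, hx, hp⟩
    · refine ⟨rfl, fun A hA => ?_⟩
      rw [rhs_pr' _ (by simp [w0])] at hA
      simp at hA
    · refine ⟨rfl, fun A hA => ?_⟩
      rw [rhs_pr' _ (by simp)] at hA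
      simp only [List.mem_append, List.mem_replicate, List.mem_singleton, Sum.inl.injEq,
        reduceCtorEq, and_false, false_or] at hA
      subst hA; rfl
    · refine ⟨rfl, fun A hA => ?_⟩
      simp only [rhs, List.mem_cons, Sum.inl.injEq, List.not_mem_nil, or_false] at hA
      rcases hA with rfl | rfl <;> rfl
    · refine ⟨rfl, fun A hA => ?_⟩
      simp only [rhs, List.mem_cons, Sum.inl.injEq, List.not_mem_nil, or_false, reduceCtorEq,
        false_or] at hA
      subst hA; rfl
    · refine ⟨rfl, fun A hA => ?_⟩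
      simp [rhs] at hA
    · refine ⟨rfl, fun A hA => ?_⟩
      simp only [rhs, List.mem_cons, Sum.inl.injEq, List.not_mem_nil, or_false, reduceCtorEq,
        false_or] at hA
      subst hA; rfl
    · refine ⟨rfl, fun A hA => ?_⟩
      simp only [rhs, List.mem_cons, Sum.inl.injEq, List.not_mem_nil, or_false] at hA
      subst hA; rfl
    · refine ⟨rfl, fun A hA => ?_⟩
      simp [rhs] at hA
    · refine ⟨rfl, fun A hA => ?_⟩
      simp only [rhs, List.mem_cons, Sum.inl.injEq, List.not_mem_nil, or_false, reduceCtorEq,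
        false_or] at hA
      subst hA; rfl
    · have hD : U1 (nD i) := by unfold U1 nD; omega
      rcases hp with rfl | rfl | rfl | hp
      · refine ⟨(rfl : (3 : ℕ) % 2 = 1), fun A hA => ?_⟩
        simp only [rhs, List.mem_cons, Sum.inl.injEq, List.not_mem_nil, or_false] at hA
        rcases hA with rfl | rfl
        · exact hD
        · rfl
      · refine ⟨(rfl : (5 : ℕ) % 2 = 1), fun A hA => ?_⟩
        simp [rhs] at hA
      · refine ⟨(rfl : (7 : ℕ) % 2 = 1), fun A hA => ?_⟩
        simp only [rhs, List.mem_cons, Sum.inl.injEq, List.not_mem_nil, or_false, reduceCtorEq,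
          false_or] at hA
        subst hA; rfl
      · rw [mem_rD] at hp
        rcases hp with rfl | ⟨a, b, ha, hb, ⟨h1, rfl⟩ | ⟨h1, rfl⟩ | ⟨h1, rfl⟩⟩
        · refine ⟨hD, fun A hA => ?_⟩
          rw [rhs_pr' _ (by simp), nt_zs, List.mem_cons] at hA
          rcases hA with hA | hA
          · simp only [Sum.inl.injEq] at hA
            rw [hA]; exact hD
          · exact absurd hA (nt_zs' _)
        · refine ⟨hD, fun A hA => ?_⟩
          rw [rhs_pr' _ (by simp), nt_zs, List.mem_cons] at hA
          rcases hA with hA | hA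
          · simp at hA
          · exact absurd hA (nt_zs' _)
        · refine ⟨hD, fun A hA => ?_⟩
          rw [rhs_pr' _ (by simp), nt_zs, List.mem_cons, nt_zs] at hA
          rcases hA with hA | hA
          · simp at hA
          · simp only [List.mem_singleton, Sum.inl.injEq] at hA
            subst hA; rfl
        · refine ⟨hD, fun A hA => ?_⟩
          rw [rhs_pr' _ (by simp), List.mem_cons, nt_zs, List.mem_cons] at hA
          rcases hA with hA | hA | hA
          · simp only [Sum.inl.injEq] at hA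
            subst hA; rfl
          · simp at hA
          · exact absurd hA (nt_zs' _)
  h2 := by
    intro p hp
    rw [mem_PR] at hp
    rcases hp with ⟨k, hk, rfl⟩ | rfl | rfl | ⟨i, x, hx, rfl | rfl | ⟨h, rfl⟩⟩
    · exact ⟨U2_cN (k + 1), _, rfl, Or.inr ⟨_, U2_cN k, rfl⟩⟩
    · exact ⟨U2_aN none, _, rfl, Or.inr ⟨_, U2_aN none, rfl⟩⟩
    · exact ⟨U2_aN none, _, rfl, Or.inl rfl⟩
    · exact ⟨U2_aN (some x.1), _, rfl, Or.inr ⟨_, U2_aN x.2.2.2.2.2, rfl⟩⟩
    · exact ⟨U2_aN (some x.1), _, rfl, Or.inr ⟨_, U2_aN (some x.1), rfl⟩⟩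
    · exact ⟨U2_cN 0, _, rfl, Or.inr ⟨_, U2_aN x.2.2.2.2.2, rfl⟩⟩

/-- the languages of the right-linear part -/
def LR (T : List Tr) (p0 N : ℕ) (A : ℕ) (w : List ℕ) : Prop :=
  (∀ o, A = aN o → ∃ k v, W T o v ∧ w = List.replicate k 1 ++ v) ∧
  (∀ k, A = cN k → ∃ v, W T (some p0) v ∧
    w = List.replicate (k - N) 0 ++ (List.replicate (min k N) 1 ++ v))

theorem LR_aN {T : List Tr} {p0 N : ℕ} {o : Option ℕ} {w : List ℕ} : LR T p0 N (aN o) w ↔
    ∃ k v, W T o v ∧ w = List.replicate k 1 ++ v := by
  constructor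
  · intro h; exact h.1 o rfl
  · intro h
    refine ⟨fun o' ho => ?_, fun k hk => absurd hk aN_ne_cN⟩
    obtain rfl := aN_inj ho
    exact h

theorem LR_cN {T : List Tr} {p0 N k : ℕ} {w : List ℕ} : LR T p0 N (cN k) w ↔
    ∃ v, W T (some p0) v ∧ w = List.replicate (k - N) 0 ++ (List.replicate (min k N) 1 ++ v) := by
  constructor
  · intro h; exact h.2 k rfl
  · intro h
    refine ⟨fun o' ho => absurd ho.symm aN_ne_cN, fun k' hk => ?_⟩
    obtain rfl : k = k' := by unfold cN at hk; omega
    exact h

theorem sound_PR {T : List Tr} {p0 N : ℕ} :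
    ∀ p ∈ PR T p0 N, ∀ w, SemL (LR T p0 N) (rhs p) w → LR T p0 N p.1 w := by
  intro p hp w hw
  rw [mem_PR] at hp
  rcases hp with ⟨k, hk, rfl⟩ | rfl | rfl | ⟨i, x, hx, rfl | rfl | ⟨h, rfl⟩⟩
  · obtain ⟨w1, rfl, w2, w3, rfl, h1, rfl⟩ := hw
    change LR T p0 N (cN (k + 1)) _
    rw [LR_cN] at h1 ⊢
    obtain ⟨v, hv, rfl⟩ := h1
    refine ⟨v, hv, ?_⟩
    split_ifs with h2
    · rw [show k + 1 - N = 0 by omega, show k - N = 0 by omega, show min (k + 1) N = k + 1 by omega,
        show min k N = k by omega]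
      simp [List.replicate_succ]
    · rw [show k + 1 - N = (k - N) + 1 by omega, show min (k + 1) N = N by omega,
        show min k N = N by omega]
      simp [List.replicate_succ]
  · obtain ⟨w1, rfl, w2, w3, rfl, h1, rfl⟩ := hw
    change LR T p0 N (aN none) _
    rw [LR_aN] at h1 ⊢
    obtain ⟨k, v, hv, rfl⟩ := h1
    exact ⟨k + 1, v, hv, by simp [List.replicate_succ]⟩
  · obtain ⟨w1, rfl, rfl⟩ := hw
    change LR T p0 N (aN none) _
    rw [LR_aN]
    exact ⟨0, [0], W.stop, rfl⟩
  · obtain ⟨w1, rfl, w2, w3, rfl, h1, rfl⟩ := hw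
    change LR T p0 N (aN (some x.1)) _
    rw [LR_aN] at h1 ⊢
    obtain ⟨k, v, hv, rfl⟩ := h1
    exact ⟨0, _, W.step i x k v hx hv, by simp⟩
  · obtain ⟨w1, rfl, w2, w3, rfl, h1, rfl⟩ := hw
    change LR T p0 N (aN (some x.1)) _
    rw [LR_aN] at h1 ⊢
    obtain ⟨k, v, hv, rfl⟩ := h1
    exact ⟨k + 1, v, hv, by simp [List.replicate_succ]⟩
  · obtain ⟨w1, rfl, w2, w3, rfl, h1, rfl⟩ := hw
    change LR T p0 N (cN 0) _
    rw [LR_aN] at h1
    rw [LR_cN]
    obtain ⟨k, v, hv, rfl⟩ := h1
    refine ⟨(i + 2) :: (List.replicate k 1 ++ v), ?_, by simp⟩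
    rw [← h]
    exact W.step i x k v hx hv

theorem gen_aN {T : List Tr} {p0 N : ℕ} {o : Option ℕ} {v : List ℕ} (h : W T o v) :
    ∀ k, Gen (PR T p0 N) [Sum.inl (aN o)] (List.replicate k 1 ++ v) := by
  induction h with
  | stop =>
    intro k
    induction k with
    | zero =>
      rw [gen_single]
      refine ⟨(aN none, Sum.inr 0, []), ?_, rfl, Gen.ter _ _ _ Gen.nil⟩
      rw [mem_PR]
      exact Or.inr (Or.inr (Or.inl rfl))
    | succ k ih =>
      rw [gen_single]
      refine ⟨(aN none, Sum.inr 1, [Sum.inl (aN none)]), ?_, rfl, Gen.ter _ _ _ ih⟩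
      rw [mem_PR]
      exact Or.inr (Or.inl rfl)
  | step i x k' v hx hv ih =>
    intro k
    induction k with
    | zero =>
      rw [gen_single]
      refine ⟨(aN (some x.1), Sum.inr (i + 2), [Sum.inl (aN x.2.2.2.2.2)]), ?_, rfl,
        Gen.ter _ _ _ (ih k')⟩
      rw [mem_PR]
      exact Or.inr (Or.inr (Or.inr ⟨i, x, hx, Or.inl rfl⟩))
    | succ k ih2 =>
      rw [gen_single]
      refine ⟨(aN (some x.1), Sum.inr 1, [Sum.inl (aN (some x.1))]), ?_, rfl,
        Gen.ter _ _ _ ih2⟩
      rw [mem_PR]
      exact Or.inr (Or.inr (Or.inr ⟨i, x, hx, Or.inr (Or.inl rfl)⟩))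

theorem gen_cN {T : List Tr} {p0 N : ℕ} {v : List ℕ} (h : W T (some p0) v) :
    ∀ k ≤ T.length + 2 + N, Gen (PR T p0 N) [Sum.inl (cN k)]
      (List.replicate (k - N) 0 ++ (List.replicate (min k N) 1 ++ v)) := by
  intro k
  induction k with
  | zero =>
    intro _
    generalize ho : some p0 = o at h
    cases h with
    | stop => simp at ho
    | step i x k' v hx hv =>
      simp only [Option.some.injEq] at ho
      rw [gen_single]
      refine ⟨(cN 0, Sum.inr (i + 2), [Sum.inl (aN x.2.2.2.2.2)]), ?_, rfl, ?_⟩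
      · rw [mem_PR]
        exact Or.inr (Or.inr (Or.inr ⟨i, x, hx, Or.inr (Or.inr ⟨ho.symm, rfl⟩)⟩))
      · simp only [Nat.zero_sub, Nat.zero_min, List.replicate_zero, List.nil_append]
        exact Gen.ter _ _ _ (gen_aN hv k')
  | succ k ih =>
    intro hk
    have h1 := ih (by omega)
    rw [gen_single]
    refine ⟨(cN (k + 1), Sum.inr (if k < N then 1 else 0), [Sum.inl (cN k)]), ?_, rfl, ?_⟩
    · rw [mem_PR]
      exact Or.inl ⟨k, by omega, rfl⟩
    · have h2 := Gen.ter (if k < N then 1 else 0) _ _ h1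
      change Gen _ [Sum.inr (if k < N then 1 else 0), Sum.inl (cN k)] _
      convert h2 using 1
      split_ifs with h3
      · rw [show k + 1 - N = 0 by omega, show k - N = 0 by omega,
          show min (k + 1) N = k + 1 by omega, show min k N = k by omega]
        simp [List.replicate_succ]
      · rw [show k + 1 - N = (k - N) + 1 by omega, show min (k + 1) N = N by omega,
          show min k N = N by omega]
        simp [List.replicate_succ]

/-- the reduction, on the level of languages -/
theorem incl_iff {T : List Tr} (hT : ∀ x ∈ T, x.2.2.1 < x.2.1) (p0 N : ℕ) :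
    (∀ w, Gen (PR T p0 N) [Sum.inl (cN (T.length + 2 + N))] w → Gen (P1 T) [Sum.inl 1] w) ↔
      ¬ HaltsT T (some p0) N := by
  constructor
  · intro h hh
    obtain ⟨v, hv, hok⟩ := w_of_halts hh
    have h1 := gen_cN (N := N) hv (T.length + 2 + N) le_rfl
    rw [show T.length + 2 + N - N = T.length + 2 by omega,
      show min (T.length + 2 + N) N = N by omega] at h1
    rcases sound_S1 hT (h _ h1) with h2 | ⟨y, h2, h3⟩
    · have h4 := congrArg List.length h2
      have h5 := List.length_pos_iff.2 hv.ne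
      simp only [w0, List.length_append, List.length_replicate, List.length_range] at h4
      omega
    · have h4 := List.append_cancel_left h2
      subst h4
      rw [okf_rep, Nat.zero_add] at h3
      exact h3 hok
  · intro h w hw
    have h1 := sound_single (LL := LR T p0 N) sound_PR hw
    rw [LR_cN] at h1
    obtain ⟨v, hv, rfl⟩ := h1
    rw [show T.length + 2 + N - N = T.length + 2 by omega,
      show min (T.length + 2 + N) N = N by omega]
    exact gen_S1 hT hv (fun hok => h (halts_of_w hv N hok))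

theorem gen_G1 {T : List Tr} {w : List ℕ} :
    w ∈ lang (G1 0 1 (P1 T)) ↔ Gen (P1 T) [Sum.inl 1] w := by
  have hU : ∀ p ∈ P1 T, U1 p.1 ∧ ∀ A, Sum.inl A ∈ rhs p → U1 A := (parts T 0 0).h1
  have key : ∀ {u : List (Sy ℕ)} {w : List ℕ}, Gen ((0, Sum.inl 1, []) :: P1 T) u w →
      (∀ A, Sum.inl A ∈ u → U1 A) → Gen (P1 T) u w := by
    intro u w hg hu
    induction hg with
    | nil => exact Gen.nil
    | ter a u w _ ih => exact Gen.ter _ _ _ (ih fun A hA => hu A (List.mem_cons_of_mem _ hA))
    | non p u w1 w2 hp _ _ ih1 ih2 =>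
      have hpU := hu p.1 List.mem_cons_self
      rw [List.mem_cons] at hp
      rcases hp with rfl | hp
      · exact absurd hpU (by simp [U1])
      · exact Gen.non _ _ _ _ hp (ih1 (hU p hp).2)
          (ih2 fun A hA => hu A (List.mem_cons_of_mem _ hA))
  rw [mem_lang]
  change Gen ((0, Sum.inl 1, []) :: P1 T) [Sum.inl 0] w ↔ _
  rw [gen_single]
  constructor
  · rintro ⟨p, hp, h0, h⟩
    rw [List.mem_cons] at hp
    rcases hp with rfl | hp
    · refine key h ?_
      intro A hA
      simp only [List.mem_singleton, Sum.inl.injEq] at hA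
      rw [hA]
      rfl
    · have := (hU p hp).1
      rw [h0] at this
      exact absurd this (by simp [U1])
  · intro h
    exact ⟨_, List.mem_cons_self, rfl, h.mono fun p hp => List.mem_cons_of_mem _ hp⟩

theorem letters_P1 {T : List Tr} : ∀ p ∈ P1 T, ∀ a, Sum.inr a ∈ rhs p → a < T.length + 2 := by
  intro p hp a ha
  rw [mem_P1] at hp
  have zk : ∀ {k : ℕ}, (Sum.inr a : Sy ℕ) ∈ zs k → a < T.length + 2 := by
    intro k h
    simp only [List.mem_replicate, Sum.inr.injEq] at h
    omega
  rcases hp with rfl | rfl | rfl | rfl | rfl | rfl | rfl | rfl | rfl | ⟨i, x, hx, hp⟩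
  · rw [rhs_pr' _ (by simp [w0])] at ha
    simpa [w0] using ha
  · rw [rhs_pr' _ (by simp)] at ha
    simp only [List.mem_append, List.mem_replicate, List.mem_singleton, Sum.inr.injEq,
      reduceCtorEq, or_false] at ha
    omega
  · simp [rhs] at ha
  · simp [rhs] at ha; omega
  · simp [rhs] at ha; omega
  · simp [rhs] at ha; omega
  · simp [rhs] at ha
  · simp [rhs] at ha; omega
  · simp [rhs] at ha; omega
  · have hi : i < T.length := by
      by_contra hc
      rw [List.getElem?_eq_none (by omega)] at hx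
      simp at hx
    rcases hp with rfl | rfl | rfl | hp
    · simp [rhs] at ha
    · simp [rhs] at ha; omega
    · simp [rhs] at ha; omega
    · rw [mem_rD] at hp
      rcases hp with rfl | ⟨b, c, hb, hc, ⟨h1, rfl⟩ | ⟨h1, rfl⟩ | ⟨h1, rfl⟩⟩
      · rw [rhs_pr' _ (by simp), List.mem_append, List.mem_cons] at ha
        rcases ha with ha | ha | ha
        · exact zk ha
        · simp at ha
        · exact zk ha
      · rw [rhs_pr' _ (by simp), List.mem_append, List.mem_cons] at ha
        rcases ha with ha | ha | ha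
        · exact zk ha
        · simp only [Sum.inr.injEq] at ha; omega
        · exact zk ha
      · rw [rhs_pr' _ (by simp), List.mem_append, List.mem_cons, List.mem_append] at ha
        rcases ha with ha | ha | ha | ha
        · exact zk ha
        · simp only [Sum.inr.injEq] at ha; omega
        · exact zk ha
        · simp at ha
      · rw [rhs_pr' _ (by simp), List.mem_cons, List.mem_append, List.mem_cons] at ha
        rcases ha with ha | ha | ha | ha
        · simp at ha
        · exact zk ha
        · simp only [Sum.inr.injEq] at ha; omega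
        · exact zk ha

theorem letters_PR {T : List Tr} {p0 N : ℕ} :
    ∀ p ∈ PR T p0 N, ∀ a, Sum.inr a ∈ rhs p → a < T.length + 2 := by
  intro p hp a ha
  rw [mem_PR] at hp
  rcases hp with ⟨k, hk, rfl⟩ | rfl | rfl | ⟨i, x, hx, hp⟩
  · simp only [rhs, List.mem_cons, Sum.inr.injEq, List.not_mem_nil, or_false, reduceCtorEq] at ha
    split_ifs at ha <;> omega
  · simp [rhs] at ha; omega
  · simp [rhs] at ha; omega
  · have hi : i < T.length := by
      by_contra hc
      rw [List.getElem?_eq_none (by omega)] at hx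
      simp at hx
    rcases hp with rfl | rfl | ⟨h, rfl⟩
    · simp [rhs] at ha; omega
    · simp [rhs] at ha; omega
    · simp [rhs] at ha; omega

/-- the second grammar -/
noncomputable abbrev GG (T : List Tr) (p0 N : ℕ) : Gram :=
  G2 0 1 (cN (T.length + 2 + N)) (P1 T) (PR T p0 N)

theorem letters_GG {T : List Tr} {p0 N : ℕ} {w : List ℕ} (h : w ∈ lang (GG T p0 N)) :
    ∀ a ∈ w, a < T.length + 2 := by
  rw [mem_lang] at h
  refine letters_of_gen ?_ h ?_
  · intro p hp a ha
    rw [mem_G2] at hp
    rcases hp with rfl | rfl | hp | hp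
    · simp [rhs] at ha
    · simp [rhs] at ha
    · exact letters_P1 p hp a ha
    · exact letters_PR p hp a ha
  · intro a ha
    simp at ha

theorem isInterp_refl (G : Gram) : IsInterp G G := by
  rw [isInterp_iff]
  refine ⟨fun A => A, fun a => a, rfl, fun p hp => ?_⟩
  rw [mp_id]
  exact hp

/-- **The reduction.** -/
theorem fam_eq_iff {T : List Tr} (hT : ∀ x ∈ T, x.2.2.1 < x.2.1) (p0 N : ℕ) :
    Fam (G1 0 1 (P1 T)) = Fam (GG T p0 N) ↔ ¬ HaltsT T (some p0) N := by
  rw [← incl_iff hT]
  constructor
  · intro hfam w hw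
    -- the language of the second grammar is in the family of the first
    have h1 : lang (GG T p0 N) ∈ Fam (G1 0 1 (P1 T)) := by
      rw [hfam]
      exact ⟨_, isInterp_refl _, rfl⟩
    obtain ⟨⟨S', P'⟩, hI, hL⟩ := h1
    rw [isInterp_iff] at hI
    obtain ⟨f, τ, hS, hP⟩ := hI
    -- images of words
    have h2 : ∀ v ∈ lang (GG T p0 N), Gen (P1 T) [Sum.inl 1] (v.map τ) := by
      intro v hv
      rw [hL, mem_lang] at hv
      have h3 := Gen.mapG (Q := (G1 0 1 (P1 T)).2) f τ hP hv
      rw [← gen_G1, mem_lang]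
      simpa [ms, hS] using h3
    -- the special word
    have h3 : w0 T ∈ lang (GG T p0 N) := by
      rw [mem_lang, gen_single]
      refine ⟨(0, Sum.inl 1, []), ?_, rfl, (gen_w0 T).mono ?_⟩
      · rw [mem_G2]; exact Or.inl rfl
      · intro p hp
        rw [mem_G2]; exact Or.inr (Or.inr (Or.inl hp))
    have h4 : (w0 T).map τ = w0 T := by
      rcases sound_S1 hT (h2 _ h3) with h5 | ⟨y, h5, h6⟩
      · exact h5
      · exfalso
        have h7 := congrArg List.length h5
        simp only [w0, List.length_map, List.length_range, List.length_append,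
          List.length_replicate] at h7
        have h8 : y = [] := List.length_eq_zero_iff.1 (by omega)
        subst h8
        exact h6 trivial
    have h5 : ∀ a < T.length + 2, τ a = a := by
      intro a ha
      have h6 := congrArg (fun l : List ℕ => l[a]?) h4
      simp only [w0, List.getElem?_map] at h6
      rw [List.getElem?_range ha] at h6
      simpa using h6
    have h6 : w ∈ lang (GG T p0 N) := by
      rw [mem_lang, gen_single]
      refine ⟨(0, Sum.inl (cN (T.length + 2 + N)), []), ?_, rfl, hw.mono ?_⟩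
      · rw [mem_G2]; exact Or.inr (Or.inl rfl)
      · intro p hp
        rw [mem_G2]; exact Or.inr (Or.inr (Or.inr hp))
    have h7 := h2 w h6
    have h8 : w.map τ = w := by
      conv_rhs => rw [← List.map_id w]
      apply List.map_congr_left
      intro a ha
      exact h5 a (letters_GG h6 a ha)
    rw [h8] at h7
    exact h7
  · intro h
    exact Set.Subset.antisymm fam_le_G2 ((parts T p0 N).fam_le h)

/-! ### Computability -/

theorem primrec_GG (T : List Tr) (p0 : ℕ) : Primrec (fun N : ℕ => GG T p0 N) := by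
  have hc : Primrec cN :=
    Primrec.nat_add.comp (Primrec.nat_mul.comp (Primrec.const 4) Primrec.id) (Primrec.const 2)
  have hlen : Primrec (fun N : ℕ => T.length + 2 + N) :=
    Primrec.nat_add.comp (Primrec.const _) Primrec.id
  have h1 : Primrec (fun N : ℕ => chain (T.length + 2) N) := by
    unfold chain
    refine Primrec.list_map (Primrec.list_range.comp hlen) ?_
    have h2 : Primrec (fun q : ℕ × ℕ => cN (q.2 + 1)) := hc.comp (Primrec.succ.comp Primrec.snd)
    have h3 : Primrec (fun q : ℕ × ℕ => (if q.2 < q.1 then 1 else 0 : ℕ)) :=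
      Primrec.ite (Primrec.nat_lt.comp Primrec.snd Primrec.fst) (Primrec.const 1)
        (Primrec.const 0)
    have h4 : Primrec (fun q : ℕ × ℕ => (Sum.inr (if q.2 < q.1 then 1 else 0) : Sy ℕ)) :=
      Primrec.sumInr.comp h3
    have h5 : Primrec (fun q : ℕ × ℕ => ([Sum.inl (cN q.2)] : List (Sy ℕ))) :=
      Primrec.list_cons.comp (Primrec.sumInl.comp (hc.comp Primrec.snd)) (Primrec.const [])
    exact Primrec.pair h2 (Primrec.pair h4 h5)
  have h2 : Primrec (fun N : ℕ => PR T p0 N) := Primrec.list_append.comp h1 (Primrec.const _)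
  have h3 : Primrec (fun N : ℕ => P1 T ++ PR T p0 N) :=
    Primrec.list_append.comp (Primrec.const _) h2
  have h4 : Primrec (fun N : ℕ =>
      ((0, Sum.inl (cN (T.length + 2 + N)), []) : Prd ℕ)) :=
    Primrec.pair (Primrec.const 0) (Primrec.pair (Primrec.sumInl.comp (hc.comp hlen))
      (Primrec.const []))
  exact Primrec.pair (Primrec.const 0)
    (Primrec.list_cons.comp (Primrec.const _) (Primrec.list_cons.comp h4 h3))

/-- There is a fixed grammar such that family equivalence to it is undecidable. -/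
theorem main_fixed : ∃ G : Gram, ¬ ComputablePred (fun H : Gram => Fam G = Fam H) := by
  obtain ⟨T, p0, N, hT, hN, h⟩ := exists_tr'
  refine ⟨G1 0 1 (P1 T), fun hc => h ?_⟩
  have h1 : ManyOneReducible (fun n => ¬ HaltsT T (some p0) (N n))
      (fun H : Gram => Fam (G1 0 1 (P1 T)) = Fam H) := by
    refine ⟨fun n => GG T p0 (N n), (primrec_GG T p0).to_comp.comp hN, fun n => ?_⟩
    exact (fam_eq_iff hT p0 (N n)).symm
  have h2 := ComputablePred.computable_of_manyOneReducible h1 hc
  have h3 := h2.not
  refine h3.of_eq fun n => ?_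
  exact not_not

/-- Family equivalence is undecidable. -/
theorem main_pair : ¬ ComputablePred (fun G : Gram × Gram => Fam G.1 = Fam G.2) := by
  intro hc
  obtain ⟨G, hG⟩ := main_fixed
  apply hG
  have h1 : ManyOneReducible (fun H : Gram => Fam G = Fam H)
      (fun G : Gram × Gram => Fam G.1 = Fam G.2) :=
    ⟨fun H => (G, H), (Primrec.pair (Primrec.const G) Primrec.id).to_comp, fun _ => Iff.rfl⟩
  exact ComputablePred.computable_of_manyOneReducible h1 hc

end Pool.Agent.TH736.GF
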